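import Pool.Agent.KS6_62.Geo.Count

set_option autoImplicit false
set_option linter.unusedSimpArgs false
set_option linter.unusedVariables false

/-!
Linear spaces from partial Latin arrays.
-/

namespace Pool.Agent.KS6_62.Geo

/-- The points: rows, columns, symbols, two blocks of four points, and `r` further points. -/
abbrev Pt (K r : ℕ) : Type := Fin K ⊕ Fin K ⊕ Fin (3 * K) ⊕ (Fin 2 × Fin 4) ⊕ Fin r

variable {K r : ℕ}

/-- row point -/
def pr (i : Fin K) : Pt K r := .inl i
/-- column point -/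
def pc (i : Fin K) : Pt K r := .inr (.inl i)
/-- symbol point -/
def ps (i : Fin (3 * K)) : Pt K r := .inr (.inr (.inl i))
/-- point of a block of four points -/
def pq (s : Fin 2 × Fin 4) : Pt K r := .inr (.inr (.inr (.inl s)))

/-- The blocks. -/
def blk (f : Fin K × Fin K → Fin (3 * K)) : (Fin K × Fin K) ⊕ Fin 2 → Finset (Pt K r)
  | .inl t => {pr t.1, pc t.2, ps (f t)}
  | .inr s => Finset.univ.image (fun x : Fin 4 => pq (s, x))

theorem mem_blk_inl (f : Fin K × Fin K → Fin (3 * K)) (t : Fin K × Fin K) (p : Pt K r) :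
    p ∈ blk f (.inl t) ↔ p = pr t.1 ∨ p = pc t.2 ∨ p = ps (f t) := by
  change p ∈ ({pr t.1, pc t.2, ps (f t)} : Finset (Pt K r)) ↔ _
  simp

theorem mem_blk_inr (f : Fin K × Fin K → Fin (3 * K)) (s : Fin 2) (p : Pt K r) :
    p ∈ blk f (.inr s) ↔ ∃ x, p = pq (s, x) := by
  change p ∈ Finset.univ.image (fun x : Fin 4 => (pq (s, x) : Pt K r)) ↔ _
  rw [Finset.mem_image]
  constructor
  · rintro ⟨x, -, h⟩
    exact ⟨x, h.symm⟩
  · rintro ⟨x, h⟩
    exact ⟨x, Finset.mem_univ x, h.symm⟩

theorem card_blk_inl (f : Fin K × Fin K → Fin (3 * K)) (t : Fin K × Fin K) :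
    (blk f (.inl t) : Finset (Pt K r)).card = 3 := by
  change ({pr t.1, pc t.2, ps (f t)} : Finset (Pt K r)).card = 3
  rw [Finset.card_eq_three]
  exact ⟨_, _, _, by simp [pr, pc], by simp [pr, ps], by simp [pc, ps], rfl⟩

theorem card_blk_inr (f : Fin K × Fin K → Fin (3 * K)) (s : Fin 2) :
    (blk f (.inr s) : Finset (Pt K r)).card = 4 := by
  change (Finset.univ.image (fun x : Fin 4 => (pq (s, x) : Pt K r))).card = 4
  rw [Finset.card_image_of_injective]
  · simp
  · intro x y h
    simpa [pq] using h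

/-- two cells in a common row or column -/
def R (x y : Fin K × Fin K) : Prop := x.1 = y.1 ∨ x.2 = y.2

instance : DecidableRel (R (K := K)) := fun x y => by unfold R; infer_instance

theorem R_symm (a b : Fin K × Fin K) (h : R a b) : R b a := by
  rcases h with h | h
  · exact Or.inl h.symm
  · exact Or.inr h.symm

theorem R_deg (a : Fin K × Fin K) : (Finset.univ.filter (R a)).card ≤ 2 * K := by
  have h : Finset.univ.filter (R a) ⊆ (Finset.univ.image (fun j : Fin K => (a.1, j))) ∪
      (Finset.univ.image (fun i : Fin K => (i, a.2))) := by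
    intro x hx
    rw [Finset.mem_filter] at hx
    rw [Finset.mem_union, Finset.mem_image, Finset.mem_image]
    rcases hx.2 with h | h
    · exact Or.inl ⟨x.2, Finset.mem_univ _, by rw [h]⟩
    · exact Or.inr ⟨x.1, Finset.mem_univ _, by rw [h]⟩
  have h1 := (Finset.card_le_card h).trans (Finset.card_union_le _ _)
  have h2 : (Finset.univ.image (fun j : Fin K => (a.1, j))).card ≤ K := by
    simpa using Finset.card_image_le (s := Finset.univ) (f := fun j : Fin K => (a.1, j))
  have h3 : (Finset.univ.image (fun i : Fin K => (i, a.2))).card ≤ K := by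
    simpa using Finset.card_image_le (s := Finset.univ) (f := fun i : Fin K => (i, a.2))
  omega

/-- The proper arrays on the cells of `T`. -/
def arrays (T : Finset (Fin K × Fin K)) (c0 : Fin (3 * K)) :
    Finset (Fin K × Fin K → Fin (3 * K)) :=
  Finset.univ.filter (fun f =>
    (∀ x, x ∉ T → f x = c0) ∧ ∀ x ∈ T, ∀ y ∈ T, x ≠ y → R x y → f x ≠ f y)

theorem card_arrays (T : Finset (Fin K × Fin K)) (c0 : Fin (3 * K)) :
    K ^ T.card ≤ (arrays T c0).card := by
  have := count_colourings (R (K := K)) R_symm (3 * K) (2 * K) c0 R_deg T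
  rw [show 3 * K - 2 * K = K by omega] at this
  exact this

theorem blk_inj (f : Fin K × Fin K → Fin (3 * K)) :
    Function.Injective (blk f : (Fin K × Fin K) ⊕ Fin 2 → Finset (Pt K r)) := by
  rintro (t | s) (t' | s') h
  · have h1 : (pr t.1 : Pt K r) ∈ blk f (.inl t') := by
      rw [← h, mem_blk_inl]
      exact Or.inl rfl
    have h2 : (pc t.2 : Pt K r) ∈ blk f (.inl t') := by
      rw [← h, mem_blk_inl]
      exact Or.inr (Or.inl rfl)
    rw [mem_blk_inl] at h1 h2
    simp only [pr, pc, ps, Sum.inl.injEq, Sum.inr.injEq, reduceCtorEq, false_or, or_false] at h1 h2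
    rw [Prod.ext h1 h2]
  · have h1 := card_blk_inl (r := r) f t
    have h2 := card_blk_inr (r := r) f s'
    rw [h] at h1
    omega
  · have h1 := card_blk_inr (r := r) f s
    have h2 := card_blk_inl (r := r) f t'
    rw [h] at h1
    omega
  · have h1 : (pq (s, 0) : Pt K r) ∈ blk f (.inr s') := by
      rw [← h, mem_blk_inr]
      exact ⟨0, rfl⟩
    rw [mem_blk_inr] at h1
    obtain ⟨x, hx⟩ := h1
    simp only [pq, Sum.inr.injEq, Sum.inl.injEq, Prod.mk.injEq] at hx
    rw [hx.1]

/-- The set of blocks. -/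
def Bl (f : Fin K × Fin K → Fin (3 * K)) (T : Finset (Fin K × Fin K)) (C : Finset (Fin 2)) :
    Finset (Finset (Pt K r)) := (T.disjSum C).image (blk f)

theorem blk_pair (f : Fin K × Fin K → Fin (3 * K)) (T : Finset (Fin K × Fin K))
    (hf : ∀ x ∈ T, ∀ y ∈ T, x ≠ y → R x y → f x ≠ f y) (p q : Pt K r) (hpq : p ≠ q)
    (x y : (Fin K × Fin K) ⊕ Fin 2) (hx : ∀ t, x = .inl t → t ∈ T) (hy : ∀ t, y = .inl t → t ∈ T)
    (h1 : p ∈ blk f x) (h2 : q ∈ blk f x) (h3 : p ∈ blk f y) (h4 : q ∈ blk f y) : x = y := by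
  rcases x with t | s
  · rcases y with t' | s'
    · have ht := hx t rfl
      have ht' := hy t' rfl
      have key : ∀ (h : R t t') (h' : f t = f t'), t = t' := by
        intro h h'
        by_contra hne
        exact hf t ht t' ht' hne h h'
      rw [mem_blk_inl] at h1 h2 h3 h4
      congr 1
      rcases h1 with rfl | rfl | rfl
      · rcases h2 with rfl | rfl | rfl
        · exact absurd rfl hpq
        · simp only [pr, pc, ps, Sum.inl.injEq, Sum.inr.injEq, reduceCtorEq, false_or, or_false]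
            at h3 h4
          exact Prod.ext h3 h4
        · simp only [pr, pc, ps, Sum.inl.injEq, Sum.inr.injEq, reduceCtorEq, false_or, or_false]
            at h3 h4
          exact key (Or.inl h3) h4
      · rcases h2 with rfl | rfl | rfl
        · simp only [pr, pc, ps, Sum.inl.injEq, Sum.inr.injEq, reduceCtorEq, false_or, or_false]
            at h3 h4
          exact Prod.ext h4 h3
        · exact absurd rfl hpq
        · simp only [pr, pc, ps, Sum.inl.injEq, Sum.inr.injEq, reduceCtorEq, false_or, or_false]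
            at h3 h4
          exact key (Or.inr h3) h4
      · rcases h2 with rfl | rfl | rfl
        · simp only [pr, pc, ps, Sum.inl.injEq, Sum.inr.injEq, reduceCtorEq, false_or, or_false]
            at h3 h4
          exact key (Or.inl h4) h3
        · simp only [pr, pc, ps, Sum.inl.injEq, Sum.inr.injEq, reduceCtorEq, false_or, or_false]
            at h3 h4
          exact key (Or.inr h4) h3
        · exact absurd rfl hpq
    · exfalso
      rw [mem_blk_inl] at h1
      rw [mem_blk_inr] at h3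
      obtain ⟨x, rfl⟩ := h3
      simp [pr, pc, ps, pq] at h1
  · rcases y with t' | s'
    · exfalso
      rw [mem_blk_inr] at h1
      rw [mem_blk_inl] at h3
      obtain ⟨x, rfl⟩ := h1
      simp [pr, pc, ps, pq] at h3
    · rw [mem_blk_inr] at h1 h3
      obtain ⟨x, rfl⟩ := h1
      obtain ⟨x', hx'⟩ := h3
      simp only [pq, Sum.inr.injEq, Sum.inl.injEq, Prod.mk.injEq] at hx'
      rw [hx'.1]

theorem Bl_two (f : Fin K × Fin K → Fin (3 * K)) (T : Finset (Fin K × Fin K))
    (C : Finset (Fin 2)) : ∀ l ∈ (Bl f T C : Finset (Finset (Pt K r))), 2 ≤ l.card ∧ l.card ≤ 4 := by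
  intro l hl
  unfold Bl at hl
  rw [Finset.mem_image] at hl
  obtain ⟨x, -, rfl⟩ := hl
  rcases x with t | s
  · rw [card_blk_inl]
    omega
  · rw [card_blk_inr]
    omega

theorem Bl_pair (f : Fin K × Fin K → Fin (3 * K)) (T : Finset (Fin K × Fin K))
    (C : Finset (Fin 2)) (hf : ∀ x ∈ T, ∀ y ∈ T, x ≠ y → R x y → f x ≠ f y) :
    ∀ p q : Pt K r, p ≠ q → ∀ l ∈ Bl f T C, ∀ m ∈ Bl f T C, p ∈ l → q ∈ l → p ∈ m → q ∈ m →
      l = m := by
  intro p q hpq l hl m hm h1 h2 h3 h4
  unfold Bl at hl hm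
  rw [Finset.mem_image] at hl hm
  obtain ⟨x, hx, rfl⟩ := hl
  obtain ⟨y, hy, rfl⟩ := hm
  have := blk_pair f T hf p q hpq x y
    (fun t ht => by rw [ht, Finset.inl_mem_disjSum] at hx; exact hx)
    (fun t ht => by rw [ht, Finset.inl_mem_disjSum] at hy; exact hy) h1 h2 h3 h4
  rw [this]

/-- The linear space of an array. -/
def spc (r : ℕ) (T : Finset (Fin K × Fin K)) (C : Finset (Fin 2)) (c0 : Fin (3 * K))
    (f : {f // f ∈ arrays T c0}) : LS (Pt K r) :=
  completion (Bl f.1 T C) (fun l hl => (Bl_two f.1 T C l hl).1)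
    (Bl_pair f.1 T C (Finset.mem_filter.1 f.2).2.2)

theorem spc_le_four (T : Finset (Fin K × Fin K)) (C : Finset (Fin 2)) (c0 : Fin (3 * K))
    (f : {f // f ∈ arrays T c0}) : ∀ l ∈ (spc r T C c0 f).L, l.card ≤ 4 := by
  intro l hl
  rcases mem_completion _ _ _ l hl with hl | hl
  · exact (Bl_two f.1 T C l hl).2
  · rw [hl]
    norm_num

theorem card_Pt : Fintype.card (Pt K r) = 5 * K + 8 + r := by
  simp only [Fintype.card_sum, Fintype.card_prod, Fintype.card_fin]
  omega

theorem spc_card (T : Finset (Fin K × Fin K)) (C : Finset (Fin 2)) (c0 : Fin (3 * K))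
    (f : {f // f ∈ arrays T c0}) :
    Nat.card (spc r T C c0 f).V + (3 * T.card + 8 * C.card) = (5 * K + 8 + r) * (5 * K + 8 + r) := by
  have h := completion_card (Bl f.1 T C) (fun l hl => (Bl_two (r := r) f.1 T C l hl).1)
    (Bl_pair f.1 T C (Finset.mem_filter.1 f.2).2.2)
  rw [card_Pt] at h
  have h2 : ∑ l ∈ (Bl f.1 T C : Finset (Finset (Pt K r))), (l.card * l.card - 2 * l.card)
      = 3 * T.card + 8 * C.card := by
    unfold Bl
    rw [Finset.sum_image (fun x _ y _ h => blk_inj f.1 h), Finset.sum_disjSum]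
    congr 1
    · rw [Finset.sum_congr rfl (fun t _ => by rw [card_blk_inl])]
      rw [Finset.sum_const, smul_eq_mul]
      omega
    · rw [Finset.sum_congr rfl (fun t _ => by rw [card_blk_inr])]
      rw [Finset.sum_const, smul_eq_mul]
      omega
  rw [h2] at h
  exact h

theorem spc_inj (T : Finset (Fin K × Fin K)) (C : Finset (Fin 2)) (c0 : Fin (3 * K))
    (f g : {f // f ∈ arrays T c0}) (h : (spc r T C c0 f).L = (spc r T C c0 g).L) : f = g := by
  apply Subtype.ext
  funext t
  by_cases ht : t ∈ T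
  · have h1 : (blk f.1 (.inl t) : Finset (Pt K r)) ∈ (spc r T C c0 g).L := by
      rw [← h]
      apply Finset.mem_union_left
      unfold Bl
      rw [Finset.mem_image]
      exact ⟨_, Finset.inl_mem_disjSum.2 ht, rfl⟩
    have h2 : (blk g.1 (.inl t) : Finset (Pt K r)) ∈ (spc r T C c0 g).L := by
      apply Finset.mem_union_left
      unfold Bl
      rw [Finset.mem_image]
      exact ⟨_, Finset.inl_mem_disjSum.2 ht, rfl⟩
    have h3 := (spc r T C c0 g).un (pr t.1) (pc t.2) (by simp [pr, pc]) _ h1 _ h2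
      (by rw [mem_blk_inl]; exact Or.inl rfl) (by rw [mem_blk_inl]; exact Or.inr (Or.inl rfl))
      (by rw [mem_blk_inl]; exact Or.inl rfl) (by rw [mem_blk_inl]; exact Or.inr (Or.inl rfl))
    have h4 : (ps (f.1 t) : Pt K r) ∈ (blk g.1 (.inl t) : Finset (Pt K r)) := by
      rw [← h3, mem_blk_inl]
      exact Or.inr (Or.inr rfl)
    rw [mem_blk_inl] at h4
    simpa [pr, pc, ps] using h4
  · rw [(Finset.mem_filter.1 f.2).2.1 t ht, (Finset.mem_filter.1 g.2).2.1 t ht]

end Pool.Agent.KS6_62.Geo
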