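import Pool.Agent.KS6_62.Geo.Space

set_option autoImplicit false
set_option linter.unusedSimpArgs false
set_option linter.unusedVariables false

/-!
Biconnectivity of the graph of a linear space, and transfer to `Fin n`.
-/

namespace Pool.Agent.KS6_62.Geo

variable {α : Type} [DecidableEq α] (S : LS α)

theorem LS.biconnected [Finite α] (hc : 3 ≤ Nat.card α) (hl : ∀ l ∈ S.L, ∃ p, p ∉ l) :
    IsBiconnected S.G := by
  have hne : Nonempty α := by
    by_contra h
    rw [not_nonempty_iff] at h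
    have := Nat.card_eq_zero.2 (Or.inl h)
    omega
  refine ⟨S.geodetic.1, ?_, ?_⟩
  · have hfin : Finite S.V := by
      have : Finite S.Flag := by
        have : Finite (Finset α) := by
          have := Fintype.ofFinite α
          infer_instance
        infer_instance
      infer_instance
    exact hc.trans (Nat.card_le_card_of_injective (fun p : α => (Sum.inl p : S.V)) Sum.inl_injective)
  · intro z
    -- a base point
    have hbase : ∃ p0 : α, z ≠ .inl p0 ∧ ∀ f : S.Flag, z = .inr f → p0 ∉ f.1.2 := by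
      rcases z with z0 | f
      · have : ∃ p0 : α, p0 ≠ z0 := by
          by_contra h
          push Not at h
          have h1 : Nat.card α ≤ 1 := by
            have : Subsingleton α := ⟨fun a b => by rw [h a, h b]⟩
            exact Finite.card_le_one_iff_subsingleton.2 this
          omega
        obtain ⟨p0, h0⟩ := this
        exact ⟨p0, fun h => h0 (Sum.inl_injective h).symm, fun f h => by simp at h⟩
      · obtain ⟨p0, h0⟩ := hl f.1.2 f.2.1
        refine ⟨p0, by simp, fun f' h => ?_⟩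
        rw [← Sum.inr_injective h]
        exact h0
    obtain ⟨p0, hz0, hzf⟩ := hbase
    have hm0 : (Sum.inl p0 : S.V) ∈ ({z}ᶜ : Set S.V) := by
      simpa using Ne.symm hz0
    -- every point is reachable
    have hpt : ∀ p : α, ∀ hp : (Sum.inl p : S.V) ∈ ({z}ᶜ : Set S.V),
        (S.G.induce {z}ᶜ).Reachable ⟨.inl p, hp⟩ ⟨.inl p0, hm0⟩ := by
      intro p hp
      by_cases hpp : p = p0
      · subst hpp
        exact SimpleGraph.Reachable.refl _
      · obtain ⟨l, hl, hpl, hp0l⟩ := S.ex p p0 hpp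
        have hz1 : (Sum.inr ⟨(p, l), hl, hpl⟩ : S.V) ∈ ({z}ᶜ : Set S.V) := by
          intro h
          exact hzf _ (Set.mem_singleton_iff.1 h).symm hp0l
        have hz2 : (Sum.inr ⟨(p0, l), hl, hp0l⟩ : S.V) ∈ ({z}ᶜ : Set S.V) := by
          intro h
          exact hzf _ (Set.mem_singleton_iff.1 h).symm hp0l
        have a1 : (S.G.induce {z}ᶜ).Adj ⟨.inl p, hp⟩ ⟨_, hz1⟩ := rfl
        have a2 : (S.G.induce {z}ᶜ).Adj ⟨_, hz1⟩ ⟨_, hz2⟩ := ⟨rfl, hpp⟩
        have a3 : (S.G.induce {z}ᶜ).Adj ⟨_, hz2⟩ ⟨.inl p0, hm0⟩ := rfl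
        exact a1.reachable.trans (a2.reachable.trans a3.reachable)
    have hall : ∀ w : ({z}ᶜ : Set S.V), (S.G.induce {z}ᶜ).Reachable w ⟨.inl p0, hm0⟩ := by
      rintro ⟨p | ⟨⟨p, l⟩, hl, hp⟩, hw⟩
      · exact hpt p hw
      · by_cases hzp : z = .inl p
        · obtain ⟨q, hq, hqp⟩ := S.two l hl p
          have hz1 : (Sum.inr ⟨(q, l), hl, hq⟩ : S.V) ∈ ({z}ᶜ : Set S.V) := by
            intro h
            rw [Set.mem_singleton_iff, hzp] at h
            simp at h
          have hz2 : (Sum.inl q : S.V) ∈ ({z}ᶜ : Set S.V) := by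
            intro h
            rw [Set.mem_singleton_iff, hzp] at h
            exact hqp (Sum.inl_injective h)
          have a1 : (S.G.induce {z}ᶜ).Adj ⟨.inr ⟨(p, l), hl, hp⟩, hw⟩ ⟨_, hz1⟩ := ⟨rfl, hqp.symm⟩
          have a2 : (S.G.induce {z}ᶜ).Adj ⟨_, hz1⟩ ⟨.inl q, hz2⟩ := rfl
          exact a1.reachable.trans (a2.reachable.trans (hpt q hz2))
        · have hz2 : (Sum.inl p : S.V) ∈ ({z}ᶜ : Set S.V) := by
            intro h
            exact hzp (Set.mem_singleton_iff.1 h).symm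
          have a2 : (S.G.induce {z}ᶜ).Adj ⟨.inr ⟨(p, l), hl, hp⟩, hw⟩ ⟨.inl p, hz2⟩ := rfl
          exact a2.reachable.trans (hpt p hz2)
    refine { preconnected := fun a b => (hall a).trans (hall b).symm, nonempty := ⟨⟨_, hm0⟩⟩ }

theorem bic_iso {V W : Type} {G : SimpleGraph V} {H : SimpleGraph W} (e : G ≃g H)
    (h : IsBiconnected G) : IsBiconnected H := by
  refine ⟨e.connected_iff.1 h.1, (Nat.card_congr e.toEquiv) ▸ h.2.1, fun v => ?_⟩
  have e' : (G.induce {e.symm v}ᶜ) ≃g (H.induce {v}ᶜ) :=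
    { toEquiv := e.toEquiv.subtypeEquiv (fun a => by
        simp only [Set.mem_compl_iff, Set.mem_singleton_iff]
        constructor
        · intro h1 h2
          apply h1
          rw [← h2]
          exact (e.symm_apply_apply a).symm
        · intro h1 h2
          apply h1
          rw [h2]
          exact e.apply_symm_apply v)
      map_rel_iff' := by
        intro a b
        exact e.map_rel_iff' }
  exact e'.connected_iff.1 (h.2.2 _)

/-- the graph of a linear space, moved to `Fin n` -/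
noncomputable def LS.H {n : ℕ} (τ : S.V ≃ Fin n) : SimpleGraph (Fin n) := S.G.comap τ.symm

/-- the isomorphism -/
noncomputable def LS.isoH {n : ℕ} (τ : S.V ≃ Fin n) : S.G ≃g S.H τ where
  toEquiv := τ
  map_rel_iff' := by
    intro a b
    change S.G.Adj (τ.symm (τ a)) (τ.symm (τ b)) ↔ S.G.Adj a b
    rw [τ.symm_apply_apply, τ.symm_apply_apply]

theorem LS.H_cert {n : ℕ} (τ : S.V ≃ Fin n) :
    (∀ v, S.D (τ.symm v) (τ.symm v) = 0) ∧
    (∀ u w v, (S.H τ).Adj u w → S.D (τ.symm u) (τ.symm v) ≤ S.D (τ.symm w) (τ.symm v) + 1) ∧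
    (∀ u v, u ≠ v → ∃ w, (S.H τ).Adj u w ∧
      S.D (τ.symm w) (τ.symm v) + 1 = S.D (τ.symm u) (τ.symm v)) ∧
    (∀ u v w w', (S.H τ).Adj u w → (S.H τ).Adj u w' →
      S.D (τ.symm w) (τ.symm v) + 1 = S.D (τ.symm u) (τ.symm v) →
      S.D (τ.symm w') (τ.symm v) + 1 = S.D (τ.symm u) (τ.symm v) → w = w') := by
  refine ⟨fun v => S.D_self _, fun u w v h => S.lip _ _ _ h, fun u v huv => ?_, ?_⟩
  · obtain ⟨w, hw, hd⟩ := S.step (τ.symm u) (τ.symm v) (fun h => huv (τ.symm.injective h))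
    refine ⟨τ w, ?_, by rw [τ.symm_apply_apply]; exact hd⟩
    change S.G.Adj (τ.symm u) (τ.symm (τ w))
    rw [τ.symm_apply_apply]
    exact hw
  · intro u v w w' h h' e e'
    exact τ.symm.injective (S.uniq _ _ _ _ h h' e e')

theorem LS.H_geodetic {n : ℕ} (hn : 0 < n) (τ : S.V ≃ Fin n) : IsGeodetic (S.H τ) := by
  have : Nonempty (Fin n) := ⟨⟨0, hn⟩⟩
  obtain ⟨h0, h1, h2, h3⟩ := S.H_cert τ
  exact cert_geodetic (D := fun u v => S.D (τ.symm u) (τ.symm v)) h0 h1 h2 h3

theorem LS.H_dist {n : ℕ} (τ : S.V ≃ Fin n) (u v : Fin n) : (S.H τ).dist u v ≤ 5 := by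
  obtain ⟨h0, h1, h2, h3⟩ := S.H_cert τ
  rw [cert_dist (D := fun u v => S.D (τ.symm u) (τ.symm v)) h0 h1 h2]
  exact S.D_le _ _

theorem LS.H_biconnected [Finite α] (hc : 3 ≤ Nat.card α) (hl : ∀ l ∈ S.L, ∃ p, p ∉ l)
    {n : ℕ} (τ : S.V ≃ Fin n) : IsBiconnected (S.H τ) :=
  bic_iso (S.isoH τ) (S.biconnected hc hl)

end Pool.Agent.KS6_62.Geo
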