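import Pool.Agent.KS6_62.Geo.Array

set_option autoImplicit false
set_option linter.unusedSimpArgs false
set_option linter.unusedVariables false

/-!
Counting isomorphism classes.
-/

namespace Pool.Agent.KS6_62.Geo

/-- The relation of isomorphism on biconnected geodetic graphs with vertex set `Fin n`. -/
def isoSetoid (n : ℕ) : Setoid {G : SimpleGraph (Fin n) // IsBiconnected G ∧ IsGeodetic G} where
  r G H := Nonempty (G.1 ≃g H.1)
  iseqv := ⟨fun _ => ⟨RelIso.refl _⟩, fun ⟨e⟩ => ⟨e.symm⟩, fun ⟨e⟩ ⟨f⟩ => ⟨e.trans f⟩⟩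

/-- `g n` is the number of isomorphism classes of biconnected geodetic graphs with `n` vertices. -/
noncomputable def g (n : ℕ) : ℕ := Nat.card (Quotient (isoSetoid n))

/-- The relation of isomorphism on biconnected geodetic graphs with vertex set `Fin n` in which all
distances are at most `5`. -/
def isoSetoid5 (n : ℕ) : Setoid {G : SimpleGraph (Fin n) //
    (IsBiconnected G ∧ IsGeodetic G) ∧ ∀ u v, G.dist u v ≤ 5} where
  r G H := Nonempty (G.1 ≃g H.1)
  iseqv := ⟨fun _ => ⟨RelIso.refl _⟩, fun ⟨e⟩ => ⟨e.symm⟩, fun ⟨e⟩ ⟨f⟩ => ⟨e.trans f⟩⟩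

/-- `g5 n` is the number of isomorphism classes of biconnected geodetic graphs with `n` vertices
and all distances at most `5`. -/
noncomputable def g5 (n : ℕ) : ℕ := Nat.card (Quotient (isoSetoid5 n))

theorem g5_le_g (n : ℕ) : g5 n ≤ g n := by
  unfold g5 g
  let φ : Quotient (isoSetoid5 n) → Quotient (isoSetoid n) :=
    Quotient.map (sa := isoSetoid5 n) (sb := isoSetoid n) (fun G => ⟨G.1, G.2.1⟩)
      (fun a b h => h)
  refine Nat.card_le_card_of_injective φ ?_
  intro a b
  refine Quotient.inductionOn₂ a b (fun G H h => ?_)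
  have h' : Quotient.mk (isoSetoid n) ⟨G.1, G.2.1⟩ = Quotient.mk (isoSetoid n) ⟨H.1, H.2.1⟩ := h
  have h2 : Nonempty (G.1 ≃g H.1) := Quotient.exact h'
  exact Quotient.sound (s := isoSetoid5 n) h2

theorem main_count (K r n : ℕ) (hK : 0 < K) (hcard : 14 ≤ 5 * K + 8 + r)
    (T : Finset (Fin K × Fin K)) (C : Finset (Fin 2))
    (hn : n + (3 * T.card + 8 * C.card) = (5 * K + 8 + r) * (5 * K + 8 + r)) :
    K ^ T.card ≤ (5 * K + 8 + r).factorial * g5 n := by
  classical
  let c0 : Fin (3 * K) := ⟨0, by omega⟩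
  let A := {f // f ∈ arrays T c0}
  have hV : ∀ f : A, Nat.card (spc r T C c0 f).V = n := by
    intro f
    have := spc_card (r := r) T C c0 f
    omega
  have hpt : 14 ≤ Fintype.card (Pt K r) := by
    rw [card_Pt]
    exact hcard
  have hmiss : ∀ f : A, ∀ l ∈ (spc r T C c0 f).L, ∃ p, p ∉ l := by
    intro f l hl
    have h1 := spc_le_four T C c0 f l hl
    by_contra hc
    push Not at hc
    have h2 : l = Finset.univ := Finset.eq_univ_iff_forall.2 hc
    rw [h2, Finset.card_univ] at h1
    omega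
  have hfin : ∀ f : A, Finite (spc r T C c0 f).V := fun f => inferInstance
  have hnpos : ∀ f : A, 0 < n := by
    intro f
    have h1 := (spc r T C c0 f).card_V
    rw [hV f] at h1
    omega
  let τ : ∀ f : A, (spc r T C c0 f).V ≃ Fin n := fun f => Finite.equivFinOfCardEq (hV f)
  let Φ : A → Quotient (isoSetoid5 n) := fun f =>
    Quotient.mk (isoSetoid5 n) ⟨(spc r T C c0 f).H (τ f),
      ⟨(spc r T C c0 f).H_biconnected (by rw [Nat.card_eq_fintype_card]; omega) (hmiss f) (τ f),
        (spc r T C c0 f).H_geodetic (hnpos f) (τ f)⟩, (spc r T C c0 f).H_dist (τ f)⟩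
  have hfq : Finite (Quotient (isoSetoid5 n)) := inferInstance
  have := Fintype.ofFinite (Quotient (isoSetoid5 n))
  have h1 : (Finset.univ : Finset A).card ≤ (5 * K + 8 + r).factorial * (Finset.univ.image Φ).card := by
    refine Finset.card_le_mul_card_image _ _ ?_
    intro a ha
    rw [Finset.mem_image] at ha
    obtain ⟨f0, -, rfl⟩ := ha
    have hσ : ∀ f : A, Φ f = Φ f0 → ∃ σ : Equiv.Perm (Pt K r),
        (spc r T C c0 f).L = (spc r T C c0 f0).L.image (fun l => l.map σ.toEmbedding) := by
      intro f hf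
      have h2 : Nonempty ((spc r T C c0 f0).H (τ f0) ≃g (spc r T C c0 f).H (τ f)) :=
        Quotient.exact hf.symm
      obtain ⟨e⟩ := h2
      exact LS.iso_perm hpt (spc_le_four T C c0 f0) (spc_le_four T C c0 f)
        ((((spc r T C c0 f0).isoH (τ f0)).trans e).trans ((spc r T C c0 f).isoH (τ f)).symm)
    choose! σ hσ using hσ
    have : Fintype (Equiv.Perm (Pt K r)) := Fintype.ofFinite _
    have h3 : (Finset.univ.filter (fun x : A => Φ x = Φ f0)).card
        ≤ (Finset.univ : Finset (Equiv.Perm (Pt K r))).card := by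
      refine Finset.card_le_card_of_injOn σ (fun _ _ => Finset.mem_coe.2 (Finset.mem_univ _)) ?_
      intro f hf f' hf' h
      have hf1 := (Finset.mem_filter.1 (Finset.mem_coe.1 hf)).2
      have hf2 := (Finset.mem_filter.1 (Finset.mem_coe.1 hf')).2
      apply spc_inj T C c0
      rw [hσ f hf1, hσ f' hf2, h]
    rw [Finset.card_univ, ← Nat.card_eq_fintype_card, Nat.card_perm, Nat.card_eq_fintype_card,
      card_Pt] at h3
    exact h3
  have h4 : (Finset.univ.image Φ).card ≤ g5 n := by
    unfold g5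
    rw [Nat.card_eq_fintype_card]
    exact Finset.card_le_univ _
  have h5 : K ^ T.card ≤ (Finset.univ : Finset A).card := by
    rw [Finset.card_univ, Fintype.card_coe]
    exact card_arrays T c0
  exact h5.trans (h1.trans (Nat.mul_le_mul_left _ h4))

end Pool.Agent.KS6_62.Geo
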