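import Pool.Agent.KS6_62.Geo.Iso

set_option autoImplicit false
set_option linter.unusedSimpArgs false
set_option linter.unusedVariables false

/-!
Completing a family of blocks to a linear space; the number of vertices; the greedy count of
proper colourings.
-/

namespace Pool.Agent.KS6_62.Geo

variable {α : Type} [DecidableEq α]

/-- The linear space whose lines are the given blocks and the pairs which lie in no block. -/
def completion [Fintype α] (B : Finset (Finset α)) (h2 : ∀ l ∈ B, 2 ≤ l.card)
    (hB : ∀ p q : α, p ≠ q → ∀ l ∈ B, ∀ m ∈ B, p ∈ l → q ∈ l → p ∈ m → q ∈ m → l = m) : LS α where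
  L := B ∪ (Finset.univ.powersetCard 2).filter (fun s => ∀ l ∈ B, ¬ s ⊆ l)
  two := by
    intro l hl p
    have hc : 1 < l.card := by
      rw [Finset.mem_union, Finset.mem_filter, Finset.mem_powersetCard] at hl
      rcases hl with hl | hl
      · exact h2 l hl
      · rw [hl.1.2]
        norm_num
    exact Finset.exists_mem_ne hc p
  ex := by
    intro p q hpq
    by_cases h : ∃ l ∈ B, p ∈ l ∧ q ∈ l
    · obtain ⟨l, hl, h1, h2⟩ := h
      exact ⟨l, Finset.mem_union_left _ hl, h1, h2⟩
    · refine ⟨{p, q}, ?_, by simp, by simp⟩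
      apply Finset.mem_union_right
      rw [Finset.mem_filter, Finset.mem_powersetCard]
      refine ⟨⟨Finset.subset_univ _, Finset.card_pair hpq⟩, fun l hl hsub => ?_⟩
      exact h ⟨l, hl, hsub (by simp), hsub (by simp)⟩
  un := by
    intro p q hpq l hl m hm hpl hql hpm hqm
    have hpair : ∀ s : Finset α, s.card = 2 → p ∈ s → q ∈ s → s = {p, q} := by
      intro s hs h1 h2
      symm
      apply Finset.eq_of_subset_of_card_le
      · intro x hx
        rw [Finset.mem_insert, Finset.mem_singleton] at hx
        rcases hx with rfl | rfl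
        · exact h1
        · exact h2
      · rw [hs, Finset.card_pair hpq]
    rw [Finset.mem_union, Finset.mem_filter, Finset.mem_powersetCard] at hl hm
    rcases hl with hl | hl
    · rcases hm with hm | hm
      · exact hB p q hpq l hl m hm hpl hql hpm hqm
      · exfalso
        apply hm.2 l hl
        rw [hpair m hm.1.2 hpm hqm]
        intro x hx
        rw [Finset.mem_insert, Finset.mem_singleton] at hx
        rcases hx with rfl | rfl
        · exact hpl
        · exact hql
    · rcases hm with hm | hm
      · exfalso
        apply hl.2 m hm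
        rw [hpair l hl.1.2 hpl hql]
        intro x hx
        rw [Finset.mem_insert, Finset.mem_singleton] at hx
        rcases hx with rfl | rfl
        · exact hpm
        · exact hqm
      · rw [hpair l hl.1.2 hpl hql, hpair m hm.1.2 hpm hqm]

theorem mem_completion [Fintype α] (B : Finset (Finset α)) (h2 : ∀ l ∈ B, 2 ≤ l.card)
    (hB : ∀ p q : α, p ≠ q → ∀ l ∈ B, ∀ m ∈ B, p ∈ l → q ∈ l → p ∈ m → q ∈ m → l = m)
    (l : Finset α) (hl : l ∈ (completion B h2 hB).L) : l ∈ B ∨ l.card = 2 := by
  change l ∈ B ∪ ((Finset.univ.powersetCard 2).filter (fun s => ∀ l ∈ B, ¬ s ⊆ l)) at hl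
  rw [Finset.mem_union, Finset.mem_filter, Finset.mem_powersetCard] at hl
  rcases hl with hl | hl
  · exact Or.inl hl
  · exact Or.inr hl.1.2

theorem LS.sum_pairs [Fintype α] (S : LS α) :
    ∑ l ∈ S.L, (l.card * l.card - l.card) = Fintype.card α * Fintype.card α - Fintype.card α := by
  have h1 : (Finset.univ : Finset α).offDiag = S.L.biUnion (fun l => l.offDiag) := by
    ext ⟨p, q⟩
    simp only [Finset.mem_offDiag, Finset.mem_univ, true_and, Finset.mem_biUnion]
    constructor
    · intro hpq
      obtain ⟨l, hl, h1, h2⟩ := S.ex p q hpq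
      exact ⟨l, hl, h1, h2, hpq⟩
    · rintro ⟨l, -, -, -, h⟩
      exact h
  have h2 := congrArg Finset.card h1
  rw [Finset.offDiag_card, Finset.card_univ, Finset.card_biUnion] at h2
  · rw [h2]
    apply Finset.sum_congr rfl
    intro l _
    rw [Finset.offDiag_card]
  · intro l hl m hm hlm
    rw [Function.onFun, Finset.disjoint_left]
    rintro ⟨p, q⟩ h3 h4
    rw [Finset.mem_offDiag] at h3 h4
    exact hlm (S.un p q h3.2.2 l hl m hm h3.1 h3.2.1 h4.1 h4.2.1)

theorem LS.card_V [Fintype α] (S : LS α) :
    Nat.card S.V = Fintype.card α + ∑ l ∈ S.L, l.card := by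
  have hfin : Finite S.Flag := inferInstance
  rw [Nat.card_sum, Nat.card_eq_fintype_card (α := α)]
  congr 1
  let e : S.Flag ≃ Σ l : {l // l ∈ S.L}, {p // p ∈ l.1} :=
    { toFun := fun x => ⟨⟨x.1.2, x.2.1⟩, ⟨x.1.1, x.2.2⟩⟩
      invFun := fun x => ⟨(x.2.1, x.1.1), x.1.2, x.2.2⟩
      left_inv := fun x => rfl
      right_inv := fun x => rfl }
  rw [Nat.card_congr e, Nat.card_eq_fintype_card, Fintype.card_sigma]
  rw [← Finset.sum_coe_sort S.L (fun l => l.card)]
  apply Finset.sum_congr rfl
  intro l _
  rw [Fintype.card_coe]

theorem completion_card [Fintype α] (B : Finset (Finset α)) (h2 : ∀ l ∈ B, 2 ≤ l.card)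
    (hB : ∀ p q : α, p ≠ q → ∀ l ∈ B, ∀ m ∈ B, p ∈ l → q ∈ l → p ∈ m → q ∈ m → l = m) :
    Nat.card (completion B h2 hB).V + ∑ l ∈ B, (l.card * l.card - 2 * l.card)
      = Fintype.card α * Fintype.card α := by
  set S := completion B h2 hB with hS
  have h1 := S.card_V
  have h3 := S.sum_pairs
  have hdis : Disjoint B ((Finset.univ.powersetCard 2).filter (fun s => ∀ l ∈ B, ¬ s ⊆ l)) := by
    rw [Finset.disjoint_left]
    intro l hl hl'
    rw [Finset.mem_filter] at hl'
    exact hl'.2 l hl (Finset.Subset.refl _)
  have h4 : ∑ l ∈ S.L, (l.card * l.card - 2 * l.card)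
      = ∑ l ∈ B, (l.card * l.card - 2 * l.card) := by
    have : S.L = B ∪ ((Finset.univ.powersetCard 2).filter (fun s => ∀ l ∈ B, ¬ s ⊆ l)) := rfl
    rw [this, Finset.sum_union hdis]
    have h0 : ∑ l ∈ ((Finset.univ.powersetCard 2).filter (fun s : Finset α => ∀ l ∈ B, ¬ s ⊆ l)),
        (l.card * l.card - 2 * l.card) = 0 := by
      apply Finset.sum_eq_zero
      intro l hl
      rw [Finset.mem_filter, Finset.mem_powersetCard] at hl
      simp [hl.1.2]
    rw [h0, add_zero]
  have h5 : ∑ l ∈ S.L, (l.card * l.card - l.card)
      = ∑ l ∈ S.L, l.card + ∑ l ∈ S.L, (l.card * l.card - 2 * l.card) := by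
    rw [← Finset.sum_add_distrib]
    apply Finset.sum_congr rfl
    intro l hl
    have : 2 ≤ l.card := by
      change l ∈ B ∪ ((Finset.univ.powersetCard 2).filter (fun s => ∀ l ∈ B, ¬ s ⊆ l)) at hl
      rw [Finset.mem_union, Finset.mem_filter, Finset.mem_powersetCard] at hl
      rcases hl with hl | hl
      · exact h2 l hl
      · rw [hl.1.2]
    have h6 : 2 * l.card ≤ l.card * l.card := Nat.mul_le_mul_right _ this
    omega
  rw [← h4, h1]
  have h7 : Fintype.card α ≤ Fintype.card α * Fintype.card α := Nat.le_mul_self _
  omega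

/-- the greedy count of proper colourings of the vertices in `T` -/
theorem count_colourings {β : Type} [Fintype β] [DecidableEq β] (R : β → β → Prop)
    [DecidableRel R] (hsym : ∀ a b, R a b → R b a) (q d : ℕ) (c0 : Fin q)
    (hd : ∀ a, (Finset.univ.filter (R a)).card ≤ d) (T : Finset β) :
    (q - d) ^ T.card ≤ (Finset.univ.filter (fun f : β → Fin q =>
      (∀ x, x ∉ T → f x = c0) ∧ ∀ x ∈ T, ∀ y ∈ T, x ≠ y → R x y → f x ≠ f y)).card := by
  classical
  induction T using Finset.induction_on with
  | empty =>
    rw [Finset.card_empty, pow_zero]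
    exact Finset.card_pos.2 ⟨fun _ => c0, by simp⟩
  | @insert a T ha ih =>
    rw [Finset.card_insert_of_notMem ha, pow_succ]
    set A := Finset.univ.filter (fun f : β → Fin q =>
      (∀ x, x ∉ T → f x = c0) ∧ ∀ x ∈ T, ∀ y ∈ T, x ≠ y → R x y → f x ≠ f y) with hA
    set A' := Finset.univ.filter (fun f : β → Fin q =>
      (∀ x, x ∉ insert a T → f x = c0) ∧
        ∀ x ∈ insert a T, ∀ y ∈ insert a T, x ≠ y → R x y → f x ≠ f y) with hA'
    let free : (β → Fin q) → Finset (Fin q) := fun g =>
      Finset.univ \ ((T.filter (R a)).image g)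
    have hfree : ∀ g ∈ A, q - d ≤ (free g).card := by
      intro g _
      have h1 : ((T.filter (R a)).image g).card ≤ d :=
        Finset.card_image_le.trans
          ((Finset.card_le_card (Finset.filter_subset_filter _ (Finset.subset_univ T))).trans (hd a))
      have h2 : (free g).card = q - ((T.filter (R a)).image g).card := by
        change (Finset.univ \ ((T.filter (R a)).image g)).card = _
        rw [Finset.card_sdiff_of_subset (Finset.subset_univ _), Finset.card_univ, Fintype.card_fin]
      omega
    have h1 : (A.sigma free).card ≤ A'.card := by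
      refine Finset.card_le_card_of_injOn
        (fun x : (Σ _ : β → Fin q, Fin q) => Function.update x.1 a x.2) ?_ ?_
      · rintro ⟨g, y⟩ hx
        rw [Finset.mem_coe, Finset.mem_sigma] at hx
        obtain ⟨hg, hy⟩ := hx
        simp only at hg hy
        rw [hA, Finset.mem_filter] at hg
        obtain ⟨-, hg1, hg2⟩ := hg
        rw [Finset.mem_sdiff, Finset.mem_image] at hy
        rw [Finset.mem_coe, hA', Finset.mem_filter]
        refine ⟨Finset.mem_univ _, ?_, ?_⟩
        · intro x hx
          rw [Finset.mem_insert, not_or] at hx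
          change Function.update g a y x = c0
          rw [Function.update_of_ne hx.1]
          exact hg1 x hx.2
        · intro x hx x' hx' hne hR
          rw [Finset.mem_insert] at hx hx'
          change Function.update g a y x ≠ Function.update g a y x'
          rcases hx with rfl | hx
          · rcases hx' with rfl | hx'
            · exact absurd rfl hne
            · rw [Function.update_self, Function.update_of_ne hne.symm]
              intro hc
              exact hy.2 ⟨x', Finset.mem_filter.2 ⟨hx', hR⟩, hc.symm⟩
          · rcases hx' with rfl | hx'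
            · rw [Function.update_self, Function.update_of_ne hne]
              intro hc
              exact hy.2 ⟨x, Finset.mem_filter.2 ⟨hx, hsym _ _ hR⟩, hc⟩
            · rw [Function.update_of_ne (ne_of_mem_of_not_mem hx ha),
                Function.update_of_ne (ne_of_mem_of_not_mem hx' ha)]
              exact hg2 x hx x' hx' hne hR
      · rintro ⟨g, y⟩ hx ⟨g', y'⟩ hx' h
        rw [Finset.mem_coe, Finset.mem_sigma] at hx hx'
        have hg := hx.1
        have hg' := hx'.1
        simp only at hg hg' h
        rw [hA, Finset.mem_filter] at hg hg'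
        have e1 : y = y' := by
          have := congrFun h a
          rwa [Function.update_self, Function.update_self] at this
        have e2 : g = g' := by
          funext x
          by_cases hxa : x = a
          · subst hxa
            rw [hg.2.1 x ha, hg'.2.1 x ha]
          · have := congrFun h x
            rwa [Function.update_of_ne hxa, Function.update_of_ne hxa] at this
        rw [e1, e2]
    calc (q - d) ^ T.card * (q - d) ≤ A.card * (q - d) := Nat.mul_le_mul_right _ ih
      _ ≤ ∑ g ∈ A, (free g).card := by
          rw [← smul_eq_mul, ← Finset.sum_const]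
          exact Finset.sum_le_sum hfree
      _ = (A.sigma free).card := (Finset.card_sigma _ _).symm
      _ ≤ A'.card := h1

end Pool.Agent.KS6_62.Geo
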