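import Pool.Agent.KS6_62.Geo.Classes

set_option autoImplicit false
set_option linter.unusedSimpArgs false
set_option linter.unusedVariables false

/-!
The choice of the parameters.
-/

namespace Pool.Agent.KS6_62.Geo

theorem choose_v (n : ℕ) : ∃ v : ℕ, 100 * n ≤ 89 * (v * v) ∧
    ∀ w : ℕ, w < v → 89 * (w * w) < 100 * n := by
  classical
  have hex : ∃ v : ℕ, 100 * n ≤ 89 * (v * v) := ⟨2 * n, by nlinarith [Nat.le_mul_self n]⟩
  refine ⟨Nat.find hex, Nat.find_spec hex, fun w hw => ?_⟩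
  have := Nat.find_min hex hw
  omega

theorem main_lower : ∃ n0 : ℕ, ∀ n ≥ n0, n ^ (n / 50 + 1) ≤ g5 n := by
  refine ⟨(6 ^ 40) * (6 ^ 40), fun n hn => ?_⟩
  obtain ⟨v, hv1, hv2⟩ := choose_v n
  have hv6 : 6 ^ 40 ≤ v := by
    by_contra hc
    push Not at hc
    have : v * v < (6 ^ 40) * (6 ^ 40) := Nat.mul_lt_mul_of_lt_of_le hc hc.le (by positivity)
    omega
  have hv3 := hv2 (v - 1) (by have : 0 < 6 ^ 40 := by positivity
                              omega)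
  have hvbig : 100000 ≤ v := le_trans (by norm_num) hv6
  obtain ⟨u, rfl⟩ : ∃ u, v = u + 1 := ⟨v - 1, by omega⟩
  rw [Nat.add_sub_cancel] at hv3
  -- parameters
  have hnv : n ≤ (u + 1) * (u + 1) := by omega
  obtain ⟨d, hd⟩ : ∃ d, n + d = (u + 1) * (u + 1) := ⟨(u + 1) * (u + 1) - n, by omega⟩
  have hd1 : 11 * ((u + 1) * (u + 1)) ≤ 100 * d := by omega
  have hd2 : 100 * d ≤ 100 * ((u + 1) * (u + 1)) - 89 * (u * u) := by omega
  have huu : 100000 * 99999 ≤ (u + 1) * (u + 1) := Nat.mul_le_mul (by omega) (by omega)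
  have hd16 : 16 ≤ d := by omega
  obtain ⟨c, hc2, N, hN⟩ : ∃ c, c ≤ 2 ∧ ∃ N, 3 * N + 8 * c = d := by
    refine ⟨(2 * d) % 3, by omega, (d - 8 * ((2 * d) % 3)) / 3, by omega⟩
  obtain ⟨K, r, hKr, hr⟩ : ∃ K r, 5 * K + 8 + r = u + 1 ∧ r < 5 :=
    ⟨(u + 1 - 8) / 5, (u + 1 - 8) % 5, by omega, by omega⟩
  have hNK : N ≤ K * K := by
    have h1 : 300 * N ≤ 11 * (u * u) + 200 * u + 100 := by
      have : 100 * ((u + 1) * (u + 1)) = 100 * (u * u) + 200 * u + 100 := by ring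
      omega
    have h2 : u ≤ 5 * K + 11 := by omega
    have h3 : 19000 ≤ K := by omega
    have h4 : u * u ≤ (5 * K + 11) * (5 * K + 11) := Nat.mul_le_mul h2 h2
    nlinarith
  obtain ⟨T, -, hT⟩ := Finset.exists_subset_card_eq (s := (Finset.univ : Finset (Fin K × Fin K)))
    (n := N) (by rw [Finset.card_univ, Fintype.card_prod, Fintype.card_fin]; exact hNK)
  obtain ⟨C, -, hC⟩ := Finset.exists_subset_card_eq (s := (Finset.univ : Finset (Fin 2)))
    (n := c) (by rw [Finset.card_univ, Fintype.card_fin]; exact hc2)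
  have hmain := main_count K r n (by omega) (by omega) T C (by rw [hT, hC, hKr]; omega)
  rw [hT, hKr] at hmain
  -- the size of `K`
  have hK6 : u + 1 ≤ 6 * K := by omega
  have hKv : (u + 1) ^ 39 ≤ K ^ 40 := by
    have h1 : (u + 1) ^ 40 ≤ (6 * K) ^ 40 := Nat.pow_le_pow_left hK6 40
    rw [mul_pow] at h1
    have h2 : 6 ^ 40 * (u + 1) ^ 39 ≤ (u + 1) ^ 40 := by
      rw [pow_succ (u + 1) 39, mul_comm]
      exact Nat.mul_le_mul_left _ hv6
    exact Nat.le_of_mul_le_mul_left (h2.trans h1) (by positivity)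
  have hexp : (u + 1) + 2 * (n / 50 + 1) ≤ 39 * (N / 40) := by
    have h1 : 100000 * (u + 1) ≤ (u + 1) * (u + 1) := Nat.mul_le_mul_right _ hvbig
    have h2 : 100 * n ≤ 89 * ((u + 1) * (u + 1)) := hv1
    omega
  have hfin : (u + 1).factorial * n ^ (n / 50 + 1) ≤ (u + 1).factorial * g5 n := by
    calc (u + 1).factorial * n ^ (n / 50 + 1)
        ≤ (u + 1) ^ (u + 1) * ((u + 1) * (u + 1)) ^ (n / 50 + 1) :=
          Nat.mul_le_mul (Nat.factorial_le_pow _) (Nat.pow_le_pow_left hnv _)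
      _ = (u + 1) ^ ((u + 1) + 2 * (n / 50 + 1)) := by
          rw [← pow_two, ← pow_mul, ← pow_add]
      _ ≤ (u + 1) ^ (39 * (N / 40)) := Nat.pow_le_pow_right (by omega) hexp
      _ = ((u + 1) ^ 39) ^ (N / 40) := pow_mul _ _ _
      _ ≤ (K ^ 40) ^ (N / 40) := Nat.pow_le_pow_left hKv _
      _ = K ^ (40 * (N / 40)) := (pow_mul _ _ _).symm
      _ ≤ K ^ N := Nat.pow_le_pow_right (by omega) (Nat.mul_div_le _ _)
      _ ≤ (u + 1).factorial * g5 n := hmain
  exact Nat.le_of_mul_le_mul_left hfin (Nat.factorial_pos _)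

end Pool.Agent.KS6_62.Geo
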