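import Pool.Agent.KS6_62.Geo.Bic

set_option autoImplicit false
set_option linter.unusedSimpArgs false
set_option linter.unusedVariables false

/-!
An isomorphism between the graphs of two linear spaces with short lines and many points comes from
a permutation of the points which carries lines to lines.
-/

namespace Pool.Agent.KS6_62.Geo

variable {α : Type} [DecidableEq α]

/-- a vertex with at least five neighbours -/
def LS.Big (S : LS α) (u : S.V) : Prop := ∃ s : Finset S.V, 5 ≤ s.card ∧ ∀ w ∈ s, S.G.Adj u w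

theorem LS.big_point [Fintype α] (S : LS α) (hc : 14 ≤ Fintype.card α)
    (h4 : ∀ l ∈ S.L, l.card ≤ 4) (p : α) : S.Big (.inl p) := by
  classical
  set Lp := S.L.filter (fun l => p ∈ l) with hLp
  have hcov : (Finset.univ.erase p) ⊆ Lp.biUnion (fun l => l.erase p) := by
    intro q hq
    have hqp : q ≠ p := (Finset.mem_erase.1 hq).1
    obtain ⟨l, hl, hpl, hql⟩ := S.ex p q hqp.symm
    rw [Finset.mem_biUnion]
    exact ⟨l, by rw [hLp, Finset.mem_filter]; exact ⟨hl, hpl⟩, Finset.mem_erase.2 ⟨hqp, hql⟩⟩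
  have h1 : (Finset.univ.erase p : Finset α).card = Fintype.card α - 1 := by
    rw [Finset.card_erase_of_mem (Finset.mem_univ p), Finset.card_univ]
  have h2 : (Lp.biUnion (fun l => l.erase p)).card ≤ Lp.card * 3 := by
    refine Finset.card_biUnion_le_card_mul _ _ _ (fun l hl => ?_)
    rw [hLp, Finset.mem_filter] at hl
    rw [Finset.card_erase_of_mem hl.2]
    have := h4 l hl.1
    omega
  have h3 := Finset.card_le_card hcov
  have h5 : 5 ≤ Lp.card := by omega
  let φ : {l // l ∈ Lp} → S.V := fun l =>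
    .inr ⟨(p, l.1), (Finset.mem_filter.1 l.2).1, (Finset.mem_filter.1 l.2).2⟩
  have hφ : Function.Injective φ := by
    intro l l' h
    have h := Sum.inr_injective h
    have h := congrArg (fun x : S.Flag => x.1.2) h
    exact Subtype.ext h
  refine ⟨Finset.univ.map ⟨φ, hφ⟩, ?_, ?_⟩
  · rw [Finset.card_map, Finset.card_univ, Fintype.card_coe]
    exact h5
  · intro w hw
    rw [Finset.mem_map] at hw
    obtain ⟨l, -, rfl⟩ := hw
    exact rfl

/-- the point of a vertex -/
def LS.pt (S : LS α) : S.V → α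
  | .inl p => p
  | .inr f => f.1.1

theorem LS.not_big_flag (S : LS α) (h4 : ∀ l ∈ S.L, l.card ≤ 4) (f : S.Flag) :
    ¬ S.Big (.inr f) := by
  rintro ⟨s, hs, hadj⟩
  obtain ⟨⟨p, l⟩, hl, hp⟩ := f
  have h1 : s.card ≤ l.card := by
    refine Finset.card_le_card_of_injOn S.pt ?_ ?_
    · intro w hw
      have := hadj w hw
      rcases w with w | ⟨⟨w, m⟩, hm, hwm⟩
      · change w = p at this
        subst this
        exact hp
      · change l = m ∧ p ≠ w at this
        obtain ⟨rfl, -⟩ := this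
        exact hwm
    · intro w hw w' hw' hww
      have h1 := hadj w hw
      have h2 := hadj w' hw'
      rcases w with w | ⟨⟨w, m⟩, hm, hwm⟩
      · change w = p at h1
        rcases w' with w' | ⟨⟨w', m'⟩, hm', hwm'⟩
        · change w = w' at hww
          rw [hww]
        · change l = m' ∧ p ≠ w' at h2
          change w = w' at hww
          exact absurd (h1.symm.trans hww) h2.2
      · change l = m ∧ p ≠ w at h1
        rcases w' with w' | ⟨⟨w', m'⟩, hm', hwm'⟩
        · change w' = p at h2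
          change w = w' at hww
          exact absurd (hww.trans h2).symm h1.2
        · change l = m' ∧ p ≠ w' at h2
          change w = w' at hww
          obtain ⟨rfl, -⟩ := h1
          obtain ⟨rfl, -⟩ := h2
          subst hww
          rfl
  have h2 := h4 l hl
  omega

theorem LS.big_iso {S S' : LS α} (e : S.G ≃g S'.G) {u : S.V} (h : S.Big u) : S'.Big (e u) := by
  obtain ⟨s, hs, hadj⟩ := h
  refine ⟨s.map e.toEquiv.toEmbedding, by rw [Finset.card_map]; exact hs, ?_⟩
  intro w hw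
  rw [Finset.mem_map] at hw
  obtain ⟨x, hx, rfl⟩ := hw
  exact e.map_rel_iff.2 (hadj x hx)

theorem LS.iso_point [Fintype α] {S S' : LS α} (hc : 14 ≤ Fintype.card α)
    (h4 : ∀ l ∈ S.L, l.card ≤ 4) (h4' : ∀ l ∈ S'.L, l.card ≤ 4) (e : S.G ≃g S'.G) (p : α) :
    ∃ q, e (.inl p) = .inl q := by
  have h := LS.big_iso e (S.big_point hc h4 p)
  rcases hq : e (.inl p) with q | f
  · exact ⟨q, rfl⟩
  · rw [hq] at h
    exact absurd h (S'.not_big_flag h4' f)

theorem LS.iso_line [Nonempty α] {S S' : LS α} (e : S.G ≃g S'.G) (a : α → α)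
    (ha : ∀ p, e (.inl p) = .inl (a p)) (a' : α → α) (ha' : ∀ p, e.symm (.inl p) = .inl (a' p)) :
    ∀ l ∈ S.L, ∃ m ∈ S'.L, ∀ p ∈ l, a p ∈ m := by
  have hflag : ∀ p l, ∀ hl : l ∈ S.L, ∀ hp : p ∈ l, ∃ m, ∃ hm : m ∈ S'.L, ∃ hpm : a p ∈ m,
      e (.inr ⟨(p, l), hl, hp⟩) = .inr ⟨(a p, m), hm, hpm⟩ := by
    intro p l hl hp
    have hadj : S.G.Adj (.inl p) (.inr ⟨(p, l), hl, hp⟩) := rfl
    have hadj' := e.map_rel_iff.2 hadj
    rw [ha] at hadj'
    rcases hq : e (.inr ⟨(p, l), hl, hp⟩) with q | ⟨⟨q, m⟩, hm, hqm⟩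
    · rw [hq] at hadj'
      exact hadj'.elim
    · rw [hq] at hadj'
      change a p = q at hadj'
      subst hadj'
      exact ⟨m, hm, hqm, rfl⟩
  intro l hl
  obtain ⟨p, hp, -⟩ := S.two l hl (Classical.arbitrary α)
  obtain ⟨m, hm, hpm, hem⟩ := hflag p l hl hp
  refine ⟨m, hm, fun q hq => ?_⟩
  by_cases hqp : q = p
  · rw [hqp]
    exact hpm
  · obtain ⟨m', hm', hqm', hem'⟩ := hflag q l hl hq
    have hadj : S.G.Adj (.inr ⟨(p, l), hl, hp⟩) (.inr ⟨(q, l), hl, hq⟩) := ⟨rfl, Ne.symm hqp⟩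
    have hadj' := e.map_rel_iff.2 hadj
    rw [hem, hem'] at hadj'
    obtain ⟨h1, -⟩ := hadj'
    change m = m' at h1
    rw [h1]
    exact hqm'

theorem LS.iso_perm [Fintype α] {S S' : LS α} (hc : 14 ≤ Fintype.card α)
    (h4 : ∀ l ∈ S.L, l.card ≤ 4) (h4' : ∀ l ∈ S'.L, l.card ≤ 4) (e : S.G ≃g S'.G) :
    ∃ σ : Equiv.Perm α, S'.L = S.L.image (fun l => l.map σ.toEmbedding) := by
  have hne : Nonempty α := by
    rw [← Fintype.card_pos_iff]
    omega
  choose a ha using LS.iso_point hc h4 h4' e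
  choose b hb using LS.iso_point hc h4' h4 e.symm
  have hba : ∀ p, b (a p) = p := by
    intro p
    have h1 := hb (a p)
    rw [← ha p] at h1
    have h2 : e.symm (e (.inl p)) = .inl p := e.symm_apply_apply _
    rw [h2] at h1
    exact (Sum.inl_injective h1).symm
  have hab : ∀ p, a (b p) = p := by
    intro p
    have h1 := ha (b p)
    rw [← hb p] at h1
    have h2 : e (e.symm (.inl p)) = .inl p := e.apply_symm_apply _
    rw [h2] at h1
    exact (Sum.inl_injective h1).symm
  let σ : Equiv.Perm α := ⟨a, b, hba, hab⟩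
  have k1 := LS.iso_line e a ha b hb
  have k2 := LS.iso_line e.symm b hb a (by intro p; exact ha p)
  have main : ∀ l ∈ S.L, l.map σ.toEmbedding ∈ S'.L := by
    intro l hl
    obtain ⟨m, hm, hlm⟩ := k1 l hl
    obtain ⟨l', hl', hml⟩ := k2 m hm
    have hsub : ∀ p ∈ l, p ∈ l' := by
      intro p hp
      have := hml _ (hlm p hp)
      rwa [hba] at this
    have hex : ∃ p ∈ l, ∃ q ∈ l, p ≠ q := by
      obtain ⟨p, hp, -⟩ := S.two l hl (Classical.arbitrary α)
      obtain ⟨q, hq, hqp⟩ := S.two l hl p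
      exact ⟨p, hp, q, hq, hqp.symm⟩
    obtain ⟨p, hp, q, hq, hpq⟩ := hex
    have hll : l = l' := S.un p q hpq l hl l' hl' hp hq (hsub p hp) (hsub q hq)
    have : l.map σ.toEmbedding = m := by
      ext x
      rw [Finset.mem_map]
      constructor
      · rintro ⟨y, hy, rfl⟩
        exact hlm y hy
      · intro hx
        refine ⟨b x, ?_, hab x⟩
        rw [hll]
        exact hml x hx
    rw [this]
    exact hm
  refine ⟨σ, ?_⟩
  ext m
  rw [Finset.mem_image]
  constructor
  · intro hm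
    obtain ⟨l, hl, hml⟩ := k2 m hm
    refine ⟨l, hl, ?_⟩
    have h1 := main l hl
    obtain ⟨p, hp, -⟩ := S'.two m hm (Classical.arbitrary α)
    obtain ⟨q, hq, hqp⟩ := S'.two m hm p
    have hin : ∀ x ∈ m, x ∈ l.map σ.toEmbedding := by
      intro x hx
      rw [Finset.mem_map]
      exact ⟨b x, hml x hx, hab x⟩
    exact S'.un p q hqp.symm _ h1 m hm (hin p hp) (hin q hq) hp hq
  · rintro ⟨l, hl, rfl⟩
    exact main l hl

end Pool.Agent.KS6_62.Geo
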