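import Mathlib

set_option autoImplicit false
set_option linter.unusedSimpArgs false
set_option linter.unusedVariables false

/-!
The geodetic graph of a linear space.  Its vertices are the points and the flags `(p, l)` (`p` a
point on the line `l`); a point is joined to its flags, and two flags are joined if they have the
same line.
-/

namespace Pool.Agent.KS6_62.Geo

/-- A graph is geodetic if it is connected and every two vertices are joined by exactly one
shortest path. -/
def IsGeodetic {V : Type} (G : SimpleGraph V) : Prop :=
  G.Connected ∧ ∀ u v : V, ∃! p : G.Walk u v, p.IsPath ∧ p.length = G.dist u v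

/-- A graph is biconnected if it is connected, has at least three vertices, and stays connected
after deleting any single vertex. -/
def IsBiconnected {V : Type} (G : SimpleGraph V) : Prop :=
  G.Connected ∧ 3 ≤ Nat.card V ∧ ∀ v : V, (G.induce {v}ᶜ).Connected

section cert

variable {V : Type} {G : SimpleGraph V} {D : V → V → ℕ}

theorem cert_le (h0 : ∀ v, D v v = 0) (h1 : ∀ u w v, G.Adj u w → D u v ≤ D w v + 1) {u v : V}
    (p : G.Walk u v) : D u v ≤ p.length := by
  induction p with
  | nil => simp [h0]
  | cons h p ih =>
    rw [SimpleGraph.Walk.length_cons]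
    exact (h1 _ _ _ h).trans (by omega)

theorem cert_exists (h0 : ∀ v, D v v = 0)
    (h2 : ∀ u v, u ≠ v → ∃ w, G.Adj u w ∧ D w v + 1 = D u v) (n : ℕ) :
    ∀ u v : V, D u v = n → ∃ p : G.Walk u v, p.length = n := by
  induction n with
  | zero =>
    intro u v hd
    by_cases huv : u = v
    · subst huv; exact ⟨SimpleGraph.Walk.nil, rfl⟩
    · obtain ⟨w, -, hw⟩ := h2 u v huv
      omega
  | succ n ih =>
    intro u v hd
    have huv : u ≠ v := by
      rintro rfl
      rw [h0] at hd
      omega
    obtain ⟨w, hadj, hw⟩ := h2 u v huv
    obtain ⟨p, hp⟩ := ih w v (by omega)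
    exact ⟨SimpleGraph.Walk.cons hadj p, by rw [SimpleGraph.Walk.length_cons, hp]⟩

theorem cert_unique (h0 : ∀ v, D v v = 0) (h1 : ∀ u w v, G.Adj u w → D u v ≤ D w v + 1)
    (h3 : ∀ u v w w', G.Adj u w → G.Adj u w' → D w v + 1 = D u v → D w' v + 1 = D u v → w = w')
    {u v : V} (p : G.Walk u v) : ∀ q : G.Walk u v, p.length = D u v → q.length = D u v → p = q := by
  induction p with
  | nil =>
    intro q hp hq
    rw [h0] at hq
    cases q with
    | nil => rfl
    | cons h q => simp at hq
  | @cons u w v hadj p ih =>
    intro q hp hq
    cases q with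
    | nil =>
      rw [h0] at hp
      simp at hp
    | @cons _ w' _ hadj' q =>
      rw [SimpleGraph.Walk.length_cons] at hp hq
      have e1 := cert_le h0 h1 p
      have e2 := h1 _ _ v hadj
      have e3 := cert_le h0 h1 q
      have e4 := h1 _ _ v hadj'
      have hw : w = w' := h3 u v w w' hadj hadj' (by omega) (by omega)
      subst hw
      rw [ih q (by omega) (by omega)]

theorem cert_conn [Nonempty V] (h0 : ∀ v, D v v = 0)
    (h2 : ∀ u v, u ≠ v → ∃ w, G.Adj u w ∧ D w v + 1 = D u v) : G.Connected := by
  refine { preconnected := fun u v => ?_, nonempty := inferInstance }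
  obtain ⟨p, -⟩ := cert_exists h0 h2 _ u v rfl
  exact ⟨p⟩

theorem cert_dist (h0 : ∀ v, D v v = 0) (h1 : ∀ u w v, G.Adj u w → D u v ≤ D w v + 1)
    (h2 : ∀ u v, u ≠ v → ∃ w, G.Adj u w ∧ D w v + 1 = D u v) (u v : V) : G.dist u v = D u v := by
  obtain ⟨p, hp⟩ := cert_exists h0 h2 _ u v rfl
  refine le_antisymm (hp ▸ SimpleGraph.dist_le p) ?_
  obtain ⟨q, hq⟩ := SimpleGraph.Reachable.exists_walk_length_eq_dist ⟨p⟩
  rw [← hq]
  exact cert_le h0 h1 q

theorem cert_geodetic [Nonempty V] (h0 : ∀ v, D v v = 0)
    (h1 : ∀ u w v, G.Adj u w → D u v ≤ D w v + 1)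
    (h2 : ∀ u v, u ≠ v → ∃ w, G.Adj u w ∧ D w v + 1 = D u v)
    (h3 : ∀ u v w w', G.Adj u w → G.Adj u w' → D w v + 1 = D u v → D w' v + 1 = D u v → w = w') :
    IsGeodetic G := by
  refine ⟨cert_conn h0 h2, fun u v => ?_⟩
  obtain ⟨p, hp⟩ := cert_exists h0 h2 _ u v rfl
  have hd := cert_dist h0 h1 h2 u v
  refine ⟨p, ⟨?_, by rw [hd, hp]⟩, ?_⟩
  · exact SimpleGraph.Walk.isPath_of_length_eq_dist p (by rw [hd, hp])
  · rintro q ⟨-, hq⟩
    exact cert_unique h0 h1 h3 q p (by rw [hq, hd]) hp

end cert

/-- A linear space on the point set `α`: a set of lines, each with at least two points, such that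
two different points are on exactly one line. -/
structure LS (α : Type) [DecidableEq α] where
  L : Finset (Finset α)
  two : ∀ l ∈ L, ∀ p : α, ∃ q ∈ l, q ≠ p
  ex : ∀ p q : α, p ≠ q → ∃ l ∈ L, p ∈ l ∧ q ∈ l
  un : ∀ p q : α, p ≠ q → ∀ l ∈ L, ∀ m ∈ L, p ∈ l → q ∈ l → p ∈ m → q ∈ m → l = m

variable {α : Type} [DecidableEq α]

/-- the flags -/
abbrev LS.Flag (S : LS α) : Type := {x : α × Finset α // x.2 ∈ S.L ∧ x.1 ∈ x.2}

/-- the vertices -/
abbrev LS.V (S : LS α) : Type := α ⊕ S.Flag

/-- adjacency -/
def LS.adj (S : LS α) : S.V → S.V → Prop
  | .inl _, .inl _ => False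
  | .inl p, .inr f => p = f.1.1
  | .inr f, .inl p => p = f.1.1
  | .inr f, .inr f' => f.1.2 = f'.1.2 ∧ f.1.1 ≠ f'.1.1

/-- the graph of the linear space -/
def LS.G (S : LS α) : SimpleGraph S.V where
  Adj := S.adj
  symm := ⟨by
    rintro (p | f) (q | f') h
    · exact h
    · exact h
    · exact h
    · exact ⟨h.1.symm, h.2.symm⟩⟩
  loopless := ⟨by
    rintro (p | f) h
    · exact h
    · exact h.2 rfl⟩

open Classical in
/-- the distance -/
noncomputable def LS.D (S : LS α) : S.V → S.V → ℕ
  | .inl p, .inl q => if p = q then 0 else 3
  | .inl p, .inr f => if p = f.1.1 then 1 else if p ∈ f.1.2 then 2 else 4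
  | .inr f, .inl p => if p = f.1.1 then 1 else if p ∈ f.1.2 then 2 else 4
  | .inr f, .inr f' =>
    if f.1.1 = f'.1.1 then (if f.1.2 = f'.1.2 then 0 else 2)
    else if f.1.2 = f'.1.2 then 1
    else if f.1.1 ∈ f'.1.2 ∨ f'.1.1 ∈ f.1.2 then 3
    else if ∃ x, x ∈ f.1.2 ∧ x ∈ f'.1.2 then 4 else 5

variable (S : LS α)

theorem LS.D_self (v : S.V) : S.D v v = 0 := by
  rcases v with p | f <;> simp [LS.D]

theorem LS.D_le (u v : S.V) : S.D u v ≤ 5 := by
  rcases u with p | f <;> rcases v with q | f' <;> simp only [LS.D] <;> split_ifs <;> omega

theorem LS.lip (u w v : S.V) (h : S.G.Adj u w) : S.D u v ≤ S.D w v + 1 := by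
  rcases u with p | ⟨⟨p, l⟩, hl, hp⟩
  · rcases w with w | ⟨⟨w, m⟩, hm, hw⟩
    · exact h.elim
    · change p = w at h
      subst h
      rcases v with q | ⟨⟨q, k⟩, hk, hq⟩
      · simp only [LS.D]
        split_ifs <;> first | omega | simp_all
      · simp only [LS.D]
        split_ifs <;> first | omega | simp_all
  · rcases w with w | ⟨⟨w, m⟩, hm, hw⟩
    · change w = p at h
      subst h
      rcases v with q | ⟨⟨q, k⟩, hk, hq⟩
      · simp only [LS.D]
        split_ifs <;> first | omega | simp_all
      · simp only [LS.D]
        split_ifs <;> first | omega | simp_all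
    · obtain ⟨h1, h2⟩ := h
      change l = m at h1
      change p ≠ w at h2
      subst h1
      rcases v with q | ⟨⟨q, k⟩, hk, hq⟩
      · simp only [LS.D]
        split_ifs <;> first | omega | simp_all
      · simp only [LS.D]
        split_ifs <;> first | omega | simp_all

theorem LS.step (u v : S.V) (huv : u ≠ v) : ∃ w, S.G.Adj u w ∧ S.D w v + 1 = S.D u v := by
  rcases u with p | ⟨⟨p, l⟩, hl, hp⟩
  · rcases v with q | ⟨⟨q, m⟩, hm, hq⟩
    · have hpq : p ≠ q := fun h => huv (by rw [h])
      obtain ⟨l, hl, hp, hq⟩ := S.ex p q hpq
      refine ⟨.inr ⟨(p, l), hl, hp⟩, rfl, ?_⟩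
      simp [LS.D, hpq, hpq.symm, hq]
    · by_cases hpq : p = q
      · subst hpq
        exact ⟨.inr ⟨(p, m), hm, hq⟩, rfl, by simp [LS.D]⟩
      · by_cases hpm : p ∈ m
        · exact ⟨.inr ⟨(p, m), hm, hpm⟩, rfl, by simp [LS.D, hpq, hpm]⟩
        · obtain ⟨l, hl, hp, hq'⟩ := S.ex p q hpq
          have hlm : l ≠ m := fun h => hpm (h ▸ hp)
          exact ⟨.inr ⟨(p, l), hl, hp⟩, rfl, by simp [LS.D, hpq, hpm, hlm, hq']⟩
  · rcases v with q | ⟨⟨q, m⟩, hm, hq⟩
    · by_cases hpq : q = p
      · subst hpq
        exact ⟨.inl q, rfl, by simp [LS.D]⟩
      · by_cases hql : q ∈ l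
        · exact ⟨.inr ⟨(q, l), hl, hql⟩, ⟨rfl, Ne.symm hpq⟩, by simp [LS.D, hpq, hql]⟩
        · exact ⟨.inl p, rfl, by simp [LS.D, hpq, hql, Ne.symm hpq]⟩
    · by_cases hpq : p = q
      · subst hpq
        have hlm : l ≠ m := by
          rintro rfl
          exact huv rfl
        exact ⟨.inl p, rfl, by simp [LS.D, hlm]⟩
      · by_cases hlm : l = m
        · subst hlm
          exact ⟨.inr ⟨(q, l), hm, hq⟩, ⟨rfl, hpq⟩, by simp [LS.D, hpq]⟩
        · by_cases hpm : p ∈ m
          · exact ⟨.inl p, rfl, by simp [LS.D, hpq, hlm, hpm]⟩
          · by_cases hql : q ∈ l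
            · exact ⟨.inr ⟨(q, l), hl, hql⟩, ⟨rfl, hpq⟩, by simp [LS.D, hpq, hlm, hpm, hql]⟩
            · by_cases hx : ∃ x, x ∈ l ∧ x ∈ m
              · obtain ⟨a, ha, ha'⟩ := hx
                have hx' : ∃ x, x ∈ l ∧ x ∈ m := ⟨a, ha, ha'⟩
                have hap : p ≠ a := fun h => hpm (h ▸ ha')
                have haq : a ≠ q := fun h => hql (h ▸ ha)
                refine ⟨.inr ⟨(a, l), hl, ha⟩, ⟨rfl, hap⟩, ?_⟩
                simp [LS.D, hpq, hlm, hpm, hql, haq, ha', hx']
              · exact ⟨.inl p, rfl, by simp [LS.D, hpq, hlm, hpm, hql, hx]⟩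

/-- the values of the distance, for a point and a flag -/
theorem LS.uniq (u v w w' : S.V) (h : S.G.Adj u w) (h' : S.G.Adj u w')
    (e : S.D w v + 1 = S.D u v) (e' : S.D w' v + 1 = S.D u v) : w = w' := by
  rcases u with p | ⟨⟨p, l⟩, hl, hp⟩
  · rcases w with w | ⟨⟨w, l⟩, hl, hw⟩
    · exact h.elim
    rcases w' with w' | ⟨⟨w', l'⟩, hl', hw'⟩
    · exact h'.elim
    change p = w at h
    change p = w' at h'
    subst h
    subst h'
    have key : l = l' := by
      rcases v with q | ⟨⟨q, m⟩, hm, hq⟩
      · simp only [LS.D] at e e'
        by_cases hpq : p = q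
        · simp [hpq] at e
        · have h1 : q ∈ l := by
            by_contra hc
            simp [hpq, Ne.symm hpq, hc] at e
          have h2 : q ∈ l' := by
            by_contra hc
            simp [hpq, Ne.symm hpq, hc] at e'
          exact S.un p q hpq l hl l' hl' hw h1 hw' h2
      · simp only [LS.D] at e e'
        by_cases hpq : p = q
        · subst hpq
          have h1 : l = m := by
            by_contra hc
            simp [hc] at e
          have h2 : l' = m := by
            by_contra hc
            simp [hc] at e'
          rw [h1, h2]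
        · by_cases hpm : p ∈ m
          · have h1 : l = m := by
              by_contra hc
              simp [hpq, hpm, hc] at e
            have h2 : l' = m := by
              by_contra hc
              simp [hpq, hpm, hc] at e'
            rw [h1, h2]
          · have hlm : l ≠ m := fun h => hpm (h ▸ hw)
            have hlm' : l' ≠ m := fun h => hpm (h ▸ hw')
            have h1 : q ∈ l := by
              by_contra hc
              simp only [hpq, hpm, hlm, hc, if_false, or_self] at e
              split_ifs at e <;> omega
            have h2 : q ∈ l' := by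
              by_contra hc
              simp only [hpq, hpm, hlm', hc, if_false, or_self] at e'
              split_ifs at e' <;> omega
            exact S.un p q hpq l hl l' hl' hw h1 hw' h2
    subst key
    rfl
  · rcases w with w | ⟨⟨w, k⟩, hk, hw⟩
    · change w = p at h
      subst h
      rcases w' with w' | ⟨⟨w', k'⟩, hk', hw'⟩
      · change w' = w at h'
        rw [h']
      · exfalso
        obtain ⟨h1, h2⟩ := h'
        change l = k' at h1
        change w ≠ w' at h2
        subst h1
        rcases v with q | ⟨⟨q, m⟩, hm, hq⟩
        · simp only [LS.D] at e e'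
          split_ifs at e e' <;> omega
        · simp only [LS.D] at e e'
          by_cases hwq : w = q
          · subst hwq
            by_cases hlm : l = m
            · simp [hlm] at e
            · have : w' ≠ w := Ne.symm h2
              simp only [this, hlm, if_false, if_true] at e'
              split_ifs at e' <;> omega
          · by_cases hwm : w ∈ m
            · by_cases hlm : l = m
              · simp [hwq, hwm, hlm] at e
              · have : w' = q := by
                  by_contra hc
                  simp only [hwq, hwm, hlm, hc, if_false, if_true, true_or] at e'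
                  split_ifs at e' <;> omega
                subst this
                exact hlm (S.un w w' h2 l hl m hm hp hw' hwm hq)
            · have hlm : l ≠ m := fun h => hwm (h ▸ hp)
              simp only [hwq, hwm, hlm, if_false, false_or] at e e'
              split_ifs at e e' <;> first | omega | simp_all
    · obtain ⟨h1, h2⟩ := h
      change l = k at h1
      change p ≠ w at h2
      subst h1
      rcases w' with w' | ⟨⟨w', k'⟩, hk', hw'⟩
      · exfalso
        change w' = p at h'
        subst h'
        rcases v with q | ⟨⟨q, m⟩, hm, hq⟩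
        · simp only [LS.D] at e e'
          split_ifs at e e' <;> omega
        · simp only [LS.D] at e e'
          by_cases hwq : w' = q
          · subst hwq
            by_cases hlm : l = m
            · simp [hlm] at e
            · have : w ≠ w' := Ne.symm h2
              simp only [this, hlm, if_false, if_true] at e
              split_ifs at e <;> omega
          · by_cases hwm : w' ∈ m
            · by_cases hlm : l = m
              · simp [hwq, hwm, hlm] at e'
              · have : w = q := by
                  by_contra hc
                  simp only [hwq, hwm, hlm, hc, if_false, if_true, true_or] at e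
                  split_ifs at e <;> omega
                subst this
                exact hlm (S.un w' w h2 l hl m hm hp hw hwm hq)
            · have hlm : l ≠ m := fun h => hwm (h ▸ hp)
              simp only [hwq, hwm, hlm, if_false, false_or] at e e'
              split_ifs at e e' <;> first | omega | simp_all
      · obtain ⟨h3, h4⟩ := h'
        change l = k' at h3
        change p ≠ w' at h4
        subst h3
        have key : w = w' := by
          rcases v with q | ⟨⟨q, m⟩, hm, hq⟩
          · simp only [LS.D] at e e'
            have h1 : q = w := by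
              by_contra hc
              simp only [hc, if_false] at e
              split_ifs at e <;> omega
            have h2 : q = w' := by
              by_contra hc
              simp only [hc, if_false] at e'
              split_ifs at e' <;> omega
            rw [← h1, ← h2]
          · simp only [LS.D] at e e'
            by_cases hpq : p = q
            · subst hpq
              by_cases hlm : l = m
              · simp [hlm] at e
              · have : w ≠ p := Ne.symm h2
                simp only [this, hlm, if_false, if_true] at e
                split_ifs at e <;> omega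
            · by_cases hlm : l = m
              · have h1 : w = q := by
                  by_contra hc
                  simp [hpq, hlm, hc] at e
                have h2 : w' = q := by
                  by_contra hc
                  simp [hpq, hlm, hc] at e'
                rw [h1, h2]
              · by_cases hor : p ∈ m ∨ q ∈ l
                · have h1 : w = q := by
                    by_contra hc
                    simp only [hpq, hlm, hor, hc, if_false, if_true] at e
                    split_ifs at e <;> omega
                  have h2 : w' = q := by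
                    by_contra hc
                    simp only [hpq, hlm, hor, hc, if_false, if_true] at e'
                    split_ifs at e' <;> omega
                  rw [h1, h2]
                · by_cases hx : ∃ x, x ∈ l ∧ x ∈ m
                  · have hql : q ∉ l := fun h => hor (Or.inr h)
                    have hpm : p ∉ m := fun h => hor (Or.inl h)
                    have h1 : w ∈ m := by
                      by_contra hc
                      have hwq : w ≠ q := fun h => hc (h ▸ hq)
                      simp [hpq, hlm, hpm, hx, hc, hwq, hql] at e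
                    have h2 : w' ∈ m := by
                      by_contra hc
                      have hwq : w' ≠ q := fun h => hc (h ▸ hq)
                      simp [hpq, hlm, hpm, hx, hc, hwq, hql] at e'
                    by_contra hne
                    exact hlm (S.un w w' hne l hl m hm hw hw' h1 h2)
                  · simp only [hpq, hlm, hor, hx, if_false] at e
                    split_ifs at e <;> omega
        subst key
        rfl

theorem LS.geodetic [Nonempty α] : IsGeodetic S.G := by
  have : Nonempty S.V := ⟨.inl (Classical.arbitrary α)⟩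
  exact cert_geodetic S.D_self S.lip S.step S.uniq

theorem LS.dist_le [Nonempty α] (u v : S.V) : S.G.dist u v ≤ 5 := by
  rw [cert_dist S.D_self S.lip S.step]
  exact S.D_le u v

end Pool.Agent.KS6_62.Geo
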