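import Pool.Agent.KS6_62.Geo.Classes

set_option autoImplicit false
set_option linter.unusedSimpArgs false
set_option linter.unusedVariables false

/-!
An upper bound for the number of geodetic graphs.
-/

namespace Pool.Agent.KS6_62.Geo

/-- two non-adjacent vertices have at most one common neighbour -/
def Loc {V : Type} (G : SimpleGraph V) : Prop :=
  ∀ u v, u ≠ v → ¬ G.Adj u v → ∀ x y, G.Adj x u → G.Adj x v → G.Adj y u → G.Adj y v → x = y

theorem loc_of_geodetic {V : Type} {G : SimpleGraph V} (h : IsGeodetic G) : Loc G := by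
  intro u v huv hn x y hxu hxv hyu hyv
  have hd : G.dist u v = 2 := by
    have h1 : G.dist u v ≤ 2 :=
      SimpleGraph.dist_le (SimpleGraph.Walk.cons hxu.symm (SimpleGraph.Walk.cons hxv .nil))
    have h2 : G.dist u v ≠ 0 := fun h0 => huv ((h.1.dist_eq_zero_iff).1 h0)
    have h3 : G.dist u v ≠ 1 := fun h0 => hn (SimpleGraph.dist_eq_one_iff_adj.1 h0)
    omega
  obtain ⟨p, -, hp⟩ := h.2 u v
  have e1 := hp (SimpleGraph.Walk.cons hxu.symm (SimpleGraph.Walk.cons hxv .nil))
    ⟨SimpleGraph.Walk.isPath_of_length_eq_dist _ (by rw [hd]; rfl), by rw [hd]; rfl⟩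
  have e2 := hp (SimpleGraph.Walk.cons hyu.symm (SimpleGraph.Walk.cons hyv .nil))
    ⟨SimpleGraph.Walk.isPath_of_length_eq_dist _ (by rw [hd]; rfl), by rw [hd]; rfl⟩
  have e3 := congrArg (fun w => w.getVert 1) (e1.trans e2.symm)
  simpa using e3

variable {n : ℕ}

/-- the clique of the edge `ab` -/
def InCl (G : SimpleGraph (Fin n)) (a b x : Fin n) : Prop :=
  (x = a ∨ G.Adj x a) ∧ (x = b ∨ G.Adj x b)

theorem incl_adj {G : SimpleGraph (Fin n)} (h : Loc G) {a b x y : Fin n} (hab : G.Adj a b)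
    (hx : InCl G a b x) (hy : InCl G a b y) (hxy : x ≠ y) : G.Adj x y := by
  obtain ⟨h1, h2⟩ := hx
  obtain ⟨h3, h4⟩ := hy
  rcases h1 with rfl | h1
  · rcases h3 with rfl | h3
    · exact absurd rfl hxy
    · exact h3.symm
  rcases h2 with rfl | h2
  · rcases h4 with rfl | h4
    · exact absurd rfl hxy
    · exact h4.symm
  rcases h3 with rfl | h3
  · exact h1
  rcases h4 with rfl | h4
  · exact h2
  by_contra hn
  exact hab.ne (h x y hxy hn a b h1.symm h3.symm h2.symm h4.symm)

theorem incl_eq {G : SimpleGraph (Fin n)} (h : Loc G) {a b x y : Fin n} (hab : G.Adj a b)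
    (hx : InCl G a b x) (hy : InCl G a b y) (hxy : x ≠ y) (z : Fin n) :
    InCl G a b z ↔ InCl G x y z := by
  have key : ∀ z, InCl G a b z → InCl G x y z := by
    intro z hz
    constructor
    · by_cases hzx : z = x
      · exact Or.inl hzx
      · exact Or.inr (incl_adj h hab hz hx hzx)
    · by_cases hzy : z = y
      · exact Or.inl hzy
      · exact Or.inr (incl_adj h hab hz hy hzy)
  refine ⟨key z, fun hz => ?_⟩
  have hadj := incl_adj h hab hx hy hxy
  have ha : InCl G x y a := key a ⟨Or.inl rfl, Or.inr hab⟩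
  have hb : InCl G x y b := key b ⟨Or.inr hab.symm, Or.inl rfl⟩
  constructor
  · by_cases hza : z = a
    · exact Or.inl hza
    · exact Or.inr (incl_adj h hadj hz ha hza)
  · by_cases hzb : z = b
    · exact Or.inl hzb
    · exact Or.inr (incl_adj h hadj hz hb hzb)

/-- `a` and `b` are the two smallest elements of their clique, which contains `x` -/
def Code (G : SimpleGraph (Fin n)) (x a b : Fin n) : Prop :=
  a < b ∧ G.Adj a b ∧ InCl G a b x ∧ ∀ z, InCl G a b z → z = a ∨ b ≤ z

theorem code_eq {G : SimpleGraph (Fin n)} {x y a b a' b' : Fin n} (h1 : Code G x a b)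
    (h2 : Code G y a' b') (h : ∀ z, InCl G a b z ↔ InCl G a' b' z) : a = a' ∧ b = b' := by
  obtain ⟨hab, hadj, -, hm⟩ := h1
  obtain ⟨hab', hadj', -, hm'⟩ := h2
  have ha : InCl G a' b' a := (h a).1 ⟨Or.inl rfl, Or.inr hadj⟩
  have hb : InCl G a' b' b := (h b).1 ⟨Or.inr hadj.symm, Or.inl rfl⟩
  have ha' : InCl G a b a' := (h a').2 ⟨Or.inl rfl, Or.inr hadj'⟩
  have hb' : InCl G a b b' := (h b').2 ⟨Or.inr hadj'.symm, Or.inl rfl⟩
  have haa : a = a' := by
    rcases hm' a ha with e | e
    · exact e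
    · rcases hm a' ha' with e' | e'
      · exact e'.symm
      · exfalso
        exact absurd (lt_of_lt_of_le hab (e'.trans (hab'.le.trans e))) (lt_irrefl _)
  subst haa
  refine ⟨rfl, ?_⟩
  rcases hm' b hb with e | e
  · exact absurd e.symm hab.ne
  · rcases hm b' hb' with e' | e'
    · exact absurd e'.symm hab'.ne
    · exact le_antisymm e' e

theorem code_exists {G : SimpleGraph (Fin n)} (h : Loc G) {x y : Fin n} (hxy : G.Adj x y) :
    ∃ a b, Code G x a b ∧ Code G y a b := by
  classical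
  set s : Finset (Fin n) := Finset.univ.filter (fun z => InCl G x y z) with hs
  have hxs : x ∈ s := by
    rw [hs, Finset.mem_filter]
    exact ⟨Finset.mem_univ _, Or.inl rfl, Or.inr hxy⟩
  have hys : y ∈ s := by
    rw [hs, Finset.mem_filter]
    exact ⟨Finset.mem_univ _, Or.inr hxy.symm, Or.inl rfl⟩
  have hne : s.Nonempty := ⟨x, hxs⟩
  set a := s.min' hne with ha
  have has : a ∈ s := Finset.min'_mem _ _
  have hne' : (s.erase a).Nonempty := by
    by_cases hxa : x = a
    · exact ⟨y, Finset.mem_erase.2 ⟨fun h => hxy.ne (hxa.trans h.symm), hys⟩⟩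
    · exact ⟨x, Finset.mem_erase.2 ⟨hxa, hxs⟩⟩
  set b := (s.erase a).min' hne' with hb
  have hbs : b ∈ s.erase a := Finset.min'_mem _ _
  have hba : b ≠ a := (Finset.mem_erase.1 hbs).1
  have hbs' : b ∈ s := (Finset.mem_erase.1 hbs).2
  have hca : InCl G x y a := (Finset.mem_filter.1 has).2
  have hcb : InCl G x y b := (Finset.mem_filter.1 hbs').2
  have hab : G.Adj a b := incl_adj h hxy hca hcb hba.symm
  have hcl := incl_eq h hxy hca hcb hba.symm
  have hlt : a < b := lt_of_le_of_ne (Finset.min'_le _ _ hbs') hba.symm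
  have hmin : ∀ z, InCl G a b z → z = a ∨ b ≤ z := by
    intro z hz
    by_cases hza : z = a
    · exact Or.inl hza
    · right
      apply Finset.min'_le
      rw [Finset.mem_erase]
      refine ⟨hza, ?_⟩
      rw [hs, Finset.mem_filter]
      exact ⟨Finset.mem_univ _, (hcl z).2 hz⟩
  exact ⟨a, b, ⟨hlt, hab, (hcl x).1 (Finset.mem_filter.1 hxs).2, hmin⟩,
    ⟨hlt, hab, (hcl y).1 (Finset.mem_filter.1 hys).2, hmin⟩⟩

theorem adj_iff_code {G : SimpleGraph (Fin n)} (h : Loc G) (x y : Fin n) :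
    G.Adj x y ↔ x ≠ y ∧ ∃ a b, Code G x a b ∧ Code G y a b := by
  constructor
  · intro hxy
    exact ⟨hxy.ne, code_exists h hxy⟩
  · rintro ⟨hne, a, b, h1, h2⟩
    exact incl_adj h h1.2.1 h1.2.2.1 h2.2.2.1 hne

/-- the other end -/
def oth (x : Fin n) (p : Fin n × Fin n) : Fin n := if x = p.1 then p.2 else p.1

theorem oth_spec {G : SimpleGraph (Fin n)} {x : Fin n} {p : Fin n × Fin n}
    (h : Code G x p.1 p.2) : G.Adj x (oth x p) ∧ InCl G p.1 p.2 (oth x p) := by
  obtain ⟨h1, h2, h3, h4⟩ := h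
  unfold oth
  by_cases hx : x = p.1
  · rw [if_pos hx]
    refine ⟨hx ▸ h2, Or.inr h2.symm, Or.inl rfl⟩
  · rw [if_neg hx]
    refine ⟨?_, Or.inl rfl, Or.inr h2⟩
    rcases h3.1 with h | h
    · exact absurd h hx
    · exact h

theorem oth_key {G : SimpleGraph (Fin n)} (h : Loc G) {x : Fin n} {p q : Fin n × Fin n}
    (hp : Code G x p.1 p.2) (hq : Code G x q.1 q.2)
    (hor : oth x p = oth x q ∨ G.Adj (oth x p) (oth x q)) : p = q := by
  obtain ⟨h1, h2⟩ := oth_spec hp
  obtain ⟨h3, h4⟩ := oth_spec hq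
  have e1 := incl_eq h hp.2.1 hp.2.2.1 h2 h1.ne
  have e2 := incl_eq h hq.2.1 hq.2.2.1 h4 h3.ne
  have hcl : ∀ z, InCl G p.1 p.2 z ↔ InCl G q.1 q.2 z := by
    rcases hor with hor | hor
    · intro z
      rw [e1 z, e2 z, hor]
    · have h5 : InCl G x (oth x p) (oth x q) := ⟨Or.inr h3.symm, Or.inr hor.symm⟩
      have h6 : InCl G p.1 p.2 (oth x q) := (e1 _).2 h5
      have e3 := incl_eq h hp.2.1 hp.2.2.1 h6 h3.ne
      intro z
      rw [e3 z, e2 z]
  obtain ⟨ea, eb⟩ := code_eq hp hq hcl
  exact Prod.ext ea eb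

open Classical in
/-- the codes at `x` -/
noncomputable def codes (G : SimpleGraph (Fin n)) (x : Fin n) : Finset (Fin n × Fin n) :=
  Finset.univ.filter (fun p => Code G x p.1 p.2)

theorem mem_codes {G : SimpleGraph (Fin n)} {x : Fin n} {p : Fin n × Fin n} :
    p ∈ codes G x ↔ Code G x p.1 p.2 := by
  classical
  unfold codes
  rw [Finset.mem_filter]
  exact ⟨fun h => h.2, fun h => ⟨Finset.mem_univ _, h⟩⟩

theorem sum_offDiag_le {G : SimpleGraph (Fin n)} (h : Loc G) :
    ∑ x, (codes G x).offDiag.card ≤ n * n := by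
  classical
  rw [← Finset.card_sigma]
  have h1 : (Finset.univ.sigma (fun x : Fin n => (codes G x).offDiag)).card
      ≤ (Finset.univ : Finset (Fin n × Fin n)).card := by
    refine Finset.card_le_card_of_injOn (fun t => (oth t.1 t.2.1, oth t.1 t.2.2))
      (fun _ _ => Finset.mem_coe.2 (Finset.mem_univ _)) ?_
    rintro ⟨x, p, q⟩ ht ⟨x', p', q'⟩ ht' he
    rw [Finset.mem_coe, Finset.mem_sigma, Finset.mem_offDiag, mem_codes, mem_codes] at ht ht'
    obtain ⟨-, hp, hq, hpq⟩ := ht
    obtain ⟨-, hp', hq', hpq'⟩ := ht'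
    simp only [Prod.mk.injEq] at he
    obtain ⟨e1, e2⟩ := he
    simp only at hp hq hpq hp' hq' hpq'
    have hne : oth x p ≠ oth x q := fun e => hpq (oth_key h hp hq (Or.inl e))
    have hnadj : ¬ G.Adj (oth x p) (oth x q) := fun e => hpq (oth_key h hp hq (Or.inr e))
    have hxx : x = x' := by
      refine h _ _ hne hnadj x x' (oth_spec hp).1 (oth_spec hq).1 ?_ ?_
      · rw [e1]
        exact (oth_spec hp').1
      · rw [e2]
        exact (oth_spec hq').1
    subst hxx
    have hpp : p = p' := oth_key h hp hp' (Or.inl e1)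
    have hqq : q = q' := oth_key h hq hq' (Or.inl e2)
    rw [hpp, hqq]
  rw [Finset.card_univ, Fintype.card_prod, Fintype.card_fin] at h1
  exact h1

theorem sum_codes_sq {G : SimpleGraph (Fin n)} (h : Loc G) :
    (∑ x, (codes G x).card) ^ 2 ≤ n * (n * n + ∑ x, (codes G x).card) := by
  have h1 := sum_offDiag_le h
  have h2 : ∑ x, (codes G x).card ^ 2 = ∑ x, (codes G x).offDiag.card + ∑ x, (codes G x).card := by
    rw [← Finset.sum_add_distrib]
    apply Finset.sum_congr rfl
    intro x _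
    rw [Finset.offDiag_card, pow_two]
    have := Nat.le_mul_self (codes G x).card
    omega
  have h3 : (∑ x, (codes G x).card) ^ 2 ≤ (Finset.univ : Finset (Fin n)).card *
      ∑ x, (codes G x).card ^ 2 := sq_sum_le_card_mul_sum_sq
  rw [Finset.card_univ, Fintype.card_fin, h2] at h3
  exact h3.trans (Nat.mul_le_mul_left _ (by omega))

theorem sum_codes_le {G : SimpleGraph (Fin n)} (h : Loc G) (s : ℕ) (hs : n * n * n ≤ s * s) :
    ∑ x, (codes G x).card ≤ s + n := by
  have h1 := sum_codes_sq h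
  set I := ∑ x, (codes G x).card
  by_contra hc
  push Not at hc
  obtain ⟨j, hj⟩ : ∃ j, I = s + n + 1 + j := ⟨I - (s + n + 1), by omega⟩
  rw [hj] at h1
  nlinarith

/-- the code of a graph -/
noncomputable def code (G : SimpleGraph (Fin n)) : Finset (Fin n × Fin n × Fin n) := by
  classical exact Finset.univ.filter (fun t => Code G t.1 t.2.1 t.2.2)

theorem mem_code {G : SimpleGraph (Fin n)} {t : Fin n × Fin n × Fin n} :
    t ∈ code G ↔ Code G t.1 t.2.1 t.2.2 := by
  classical
  unfold code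
  rw [Finset.mem_filter]
  exact ⟨fun h => h.2, fun h => ⟨Finset.mem_univ _, h⟩⟩

theorem card_code (G : SimpleGraph (Fin n)) : (code G).card ≤ ∑ x, (codes G x).card := by
  classical
  rw [← Finset.card_sigma]
  refine Finset.card_le_card_of_injOn (fun t => (⟨t.1, t.2⟩ : Σ _ : Fin n, Fin n × Fin n)) ?_ ?_
  · intro t ht
    rw [Finset.mem_coe, mem_code] at ht
    rw [Finset.mem_coe, Finset.mem_sigma, mem_codes]
    exact ⟨Finset.mem_univ _, ht⟩
  · rintro ⟨x, p⟩ _ ⟨x', p'⟩ _ h
    simp only [Sigma.mk.injEq, heq_eq_eq] at h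
    rw [h.1, h.2]

theorem code_inj {G G' : SimpleGraph (Fin n)} (h : Loc G) (h' : Loc G') (he : code G = code G') :
    G = G' := by
  have hc : ∀ x a b, Code G x a b ↔ Code G' x a b := by
    intro x a b
    have h1 := mem_code (G := G) (t := (x, a, b))
    have h2 := mem_code (G := G') (t := (x, a, b))
    rw [he] at h1
    exact h1.symm.trans h2
  ext x y
  rw [adj_iff_code h, adj_iff_code h']
  simp only [hc]

/-- the number of small subsets -/
theorem card_small {β : Type} [Fintype β] (M : ℕ) :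
    Nat.card {s : Finset β // s.card ≤ M} ≤ (Fintype.card β + 1) ^ M := by
  classical
  have h : ∀ s : {s : Finset β // s.card ≤ M}, ∃ f : Fin M → Option β,
      ∀ b, b ∈ s.1 ↔ ∃ i, f i = some b := by
    rintro ⟨s, hs⟩
    refine ⟨fun i => if hi : i.1 < s.card then some (s.equivFin.symm ⟨i.1, hi⟩).1 else none,
      fun b => ?_⟩
    constructor
    · intro hb
      refine ⟨⟨(s.equivFin ⟨b, hb⟩).1, lt_of_lt_of_le (s.equivFin ⟨b, hb⟩).2 hs⟩, ?_⟩
      simp
    · rintro ⟨i, hi⟩
      simp only at hi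
      split_ifs at hi with hlt
      rw [Option.some.injEq] at hi
      rw [← hi]
      exact (s.equivFin.symm ⟨i.1, hlt⟩).2
  choose f hf using h
  have hinj : Function.Injective f := by
    intro s t hst
    apply Subtype.ext
    ext b
    rw [hf s, hf t, hst]
  have h1 := Nat.card_le_card_of_injective f hinj
  rw [Nat.card_eq_fintype_card (α := Fin M → Option β), Fintype.card_fun, Fintype.card_fin,
    Fintype.card_option] at h1
  exact h1

theorem g_upper (n s : ℕ) (hs : n * n * n ≤ s * s) : g n ≤ (n * (n * n) + 1) ^ (s + n) := by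
  unfold g
  have h1 : Nat.card (Quotient (isoSetoid n))
      ≤ Nat.card {G : SimpleGraph (Fin n) // IsBiconnected G ∧ IsGeodetic G} :=
    Nat.card_le_card_of_surjective (Quotient.mk (isoSetoid n)) Quotient.mk_surjective
  have h2 : Nat.card {G : SimpleGraph (Fin n) // IsBiconnected G ∧ IsGeodetic G}
      ≤ Nat.card {t : Finset (Fin n × Fin n × Fin n) // t.card ≤ s + n} := by
    refine Nat.card_le_card_of_injective (fun G => ⟨code G.1,
      (card_code G.1).trans (sum_codes_le (loc_of_geodetic G.2.2) s hs)⟩) ?_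
    intro G G' h
    have h' : code G.1 = code G'.1 := congrArg Subtype.val h
    exact Subtype.ext (code_inj (loc_of_geodetic G.2.2) (loc_of_geodetic G'.2.2) h')
  have h3 := card_small (β := Fin n × Fin n × Fin n) (s + n)
  rw [Fintype.card_prod, Fintype.card_prod, Fintype.card_fin] at h3
  exact h1.trans (h2.trans h3)

end Pool.Agent.KS6_62.Geo
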